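import Mathlib

/-!
# Circulant conference matrices: symmetry and basic facts

MODULE Conf1 (about 100 lines), Mathlib only.

`h : ZMod u → ℤ` with `h 0 = 0`, other values `1, -1`, all nontrivial autocorrelations `-1`.
* `sum_zero`: `(∑ h)^2 = ∑_s ∑_x h x h (x+s) = (u - 1) + (u - 1) (-1) = 0`.
* `even_of`: for `s ≠ 0`: `∑_x (1 + h x) (1 + h (x + s)) = u + 0 + 0 - 1`. The terms with `x ≠ 0`,
  `x ≠ -s` are `0` or `4`; the term `x = 0` is `1 + h s`, the term `x = -s` is `1 + h (-s)` (and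
  `0 ≠ -s`). So `u - 1 ≡ 2 + h s + h (-s)` modulo `4`; as `u ≡ 1` modulo `4`, `h s + h (-s) ≡ 2`
  modulo `4`, so `h s = h (-s)` (the sum is `-2, 0` or `2`).
* `not_sq_of_periodic`: if `s ≠ 0` and `h (x + s) = h x` for all `x` outside a set `B` with
  `2 * B.card + 1 ≤ ...`: see the statement; `∑_x h x h (x+s) ≥ ∑_{x ∉ B} h x ^ 2 - B.card`.
-/

set_option autoImplicit false

namespace Pool.Agent.H12.GS

open Finset

/-- first row of a circulant conference-type matrix -/
structure Conf (u : ℕ) [NeZero u] (h : ZMod u → ℤ) : Prop where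
  zero : h 0 = 0
  val : ∀ x, x ≠ 0 → h x = 1 ∨ h x = -1
  ac : ∀ s, s ≠ 0 → ∑ x, h x * h (x + s) = -1

private theorem conf1_sq {u : ℕ} [NeZero u] {h : ZMod u → ℤ} (hh : Conf u h) :
    ∑ x, h x * h (x + 0) = (u : ℤ) - 1 := by
  have h1 : ∀ x : ZMod u, h x * h (x + 0) = 1 - (if x = 0 then 1 else 0) := by
    intro x
    rw [add_zero]
    split_ifs with hx
    · rw [hx, hh.zero]
      norm_num
    · rcases hh.val x hx with h2 | h2 <;> rw [h2] <;> norm_num
  rw [Finset.sum_congr rfl fun x _ => h1 x, Finset.sum_sub_distrib, Finset.sum_const,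
    Finset.sum_ite_eq' univ (0 : ZMod u), if_pos (mem_univ _), card_univ, ZMod.card, nsmul_eq_mul,
    mul_one]

theorem Conf.sum_zero {u : ℕ} [NeZero u] {h : ZMod u → ℤ} (hh : Conf u h) : ∑ x, h x = 0 := by
  have h1 : (∑ x, h x) * (∑ x, h x) = 0 := by
    rw [Finset.sum_mul_sum]
    have h2 : ∀ x : ZMod u, ∑ y, h x * h y = ∑ s, h x * h (x + s) := by
      intro x
      exact (Equiv.sum_comp (Equiv.addLeft x) (fun y => h x * h y)).symm
    rw [Finset.sum_congr rfl fun x _ => h2 x, Finset.sum_comm,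
      ← Finset.add_sum_erase _ _ (mem_univ (0 : ZMod u)), conf1_sq hh,
      Finset.sum_congr rfl fun s hs => hh.ac s (Finset.ne_of_mem_erase hs), Finset.sum_const,
      Finset.card_erase_of_mem (mem_univ _), card_univ, ZMod.card, nsmul_eq_mul,
      Nat.cast_sub (Nat.one_le_iff_ne_zero.mpr (NeZero.ne u))]
    push_cast
    ring
  exact mul_self_eq_zero.mp h1

theorem Conf.even {u : ℕ} [NeZero u] {h : ZMod u → ℤ} (hh : Conf u h) (hu : u % 4 = 1)
    (s : ZMod u) : h (-s) = h s := by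
  by_cases hs : s = 0
  · rw [hs, neg_zero]
  have h1 : ∑ x, (1 + h x) * (1 + h (x + s)) = (u : ℤ) - 1 := by
    have h2 : ∀ x : ZMod u, (1 + h x) * (1 + h (x + s)) =
        1 + h x + h (x + s) + h x * h (x + s) := fun x => by ring
    have h3 : ∑ x : ZMod u, h (x + s) = 0 := by
      rw [← hh.sum_zero]
      exact Equiv.sum_comp (Equiv.addRight s) h
    rw [Finset.sum_congr rfl fun x _ => h2 x, Finset.sum_add_distrib, Finset.sum_add_distrib,
      Finset.sum_add_distrib, hh.sum_zero, h3, hh.ac s hs, Finset.sum_const, card_univ, ZMod.card,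
      nsmul_eq_mul]
    ring
  have hne : (-s) ≠ 0 := neg_ne_zero.mpr hs
  have hm : (-s) ∈ (univ : Finset (ZMod u)).erase 0 := Finset.mem_erase.mpr ⟨hne, mem_univ _⟩
  rw [← Finset.add_sum_erase _ _ (mem_univ (0 : ZMod u)), ← Finset.add_sum_erase _ _ hm, hh.zero,
    zero_add, neg_add_cancel, hh.zero] at h1
  have h4 : (4 : ℤ) ∣ ∑ x ∈ ((univ : Finset (ZMod u)).erase 0).erase (-s),
      (1 + h x) * (1 + h (x + s)) := by
    refine Finset.dvd_sum fun x hx => ?_
    have hx1 : x ≠ -s := Finset.ne_of_mem_erase hx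
    have hx2 : x ≠ 0 := Finset.ne_of_mem_erase (Finset.mem_of_mem_erase hx)
    have hx3 : x + s ≠ 0 := fun h5 => hx1 (eq_neg_of_add_eq_zero_left h5)
    rcases hh.val x hx2 with h5 | h5 <;> rcases hh.val (x + s) hx3 with h6 | h6 <;>
      rw [h5, h6] <;> norm_num
  obtain ⟨k, hk⟩ := h4
  rw [hk] at h1
  have hu' : ∃ q : ℤ, (u : ℤ) = 4 * q + 1 := ⟨(u / 4 : ℕ), by omega⟩
  obtain ⟨q, hq⟩ := hu'
  rcases hh.val s hs with h5 | h5 <;> rcases hh.val (-s) hne with h6 | h6 <;>
    rw [h5, h6] at h1 ⊢ <;> omega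

/-- a period outside a small set `B` containing `0` is impossible -/
theorem Conf.no_period {u : ℕ} [NeZero u] {h : ZMod u → ℤ} (hh : Conf u h) (s : ZMod u)
    (hs : s ≠ 0) (B : Finset (ZMod u)) (h0 : (0 : ZMod u) ∈ B)
    (hB : ∀ x, x ∉ B → h (x + s) = h x) : u < 2 * B.card := by
  have hle : ∀ x : ZMod u, -1 ≤ h x ∧ h x ≤ 1 := by
    intro x
    by_cases hx : x = 0
    · rw [hx, hh.zero]
      norm_num
    · rcases hh.val x hx with h1 | h1 <;> rw [h1] <;> norm_num
  have h1 : ∀ x : ZMod u, 1 - (if x ∈ B then 2 else 0) ≤ h x * h (x + s) := by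
    intro x
    split_ifs with hx
    · have h2 := hle x
      have h3 := hle (x + s)
      nlinarith
    · rw [hB x hx]
      have hx0 : x ≠ 0 := fun h2 => hx (h2 ▸ h0)
      rcases hh.val x hx0 with h2 | h2 <;> rw [h2] <;> norm_num
  have h2 := Finset.sum_le_sum fun x (_ : x ∈ (univ : Finset (ZMod u))) => h1 x
  rw [hh.ac s hs, Finset.sum_sub_distrib, Finset.sum_const, card_univ, ZMod.card, nsmul_eq_mul,
    Finset.sum_ite_mem, Finset.univ_inter, Finset.sum_const, nsmul_eq_mul] at h2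
  have h3 : (u : ℤ) < 2 * (B.card : ℤ) := by linarith
  exact_mod_cast h3

end Pool.Agent.H12.GS
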