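import Pool.Agent.H12.GS.Const

/-!
# Frobenius and Mann's test for functions on `ZMod q`

MODULE Frob (about 110 lines), imports Const (its statements may be used, sorried or not).

* `ft_pow`: `K` has characteristic `l`; `sum_pow_char_pow`; an integer `m` satisfies
  `(m : K) ^ l = m` (from `ZMod.pow_card` through `ZMod l → K`, or `frobenius` and `map_intCast`), and
  `ψ (a g) ^ (l ^ j) = ψ ((l ^ j : ℕ) • (a g)) = ψ ((l^j a) g)` (`AddChar.map_nsmul_eq_pow`).
* `mann_even`: strong induction on `N`. If `l` does not divide `N` the valuation is `0`. If `l ∣ N`,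
  take `ψ` from `exists_prim`; for `a ≠ 0`: `ft F a ^ (l ^ j) = ft F (-a)` (`ft_pow`, `l ^ j = -1`), so
  `ft F a ^ (l ^ j + 1) = ft F a * ft F (-a) = N = 0` in `K` (`ft_mul_neg`), `ft F a = 0`; by
  `const_mod` and `descend`, `N = l^2 N'`, `N' > 0`, and the induction hypothesis applies to `F'`, with
  `padicValNat l N = 2 + padicValNat l N'`.
-/

set_option autoImplicit false

namespace Pool.Agent.H12.GS

open Finset
open Pool.Agent.H58.Mult (ft)

theorem ft_pow {q l : ℕ} [NeZero q] [Fact l.Prime]
    (ψ : AddChar (ZMod q) (AlgebraicClosure (ZMod l))) (F : ZMod q → ℤ) (j : ℕ) (a : ZMod q) :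
    ft ψ F a ^ (l ^ j) = ft ψ F ((l : ZMod q) ^ j * a) := by
  have hch : CharP (AlgebraicClosure (ZMod l)) l :=
    charP_of_injective_algebraMap (algebraMap (ZMod l) (AlgebraicClosure (ZMod l))).injective l
  unfold ft
  rw [sum_pow_char_pow]
  refine Finset.sum_congr rfl fun g _ => ?_
  rw [mul_pow, ← AddChar.map_nsmul_eq_pow]
  congr 1
  · have h1 : ((F g : ℤ) : AlgebraicClosure (ZMod l)) =
        algebraMap (ZMod l) (AlgebraicClosure (ZMod l)) ((F g : ℤ) : ZMod l) := by
      rw [map_intCast]
    rw [h1, ← map_pow, ZMod.pow_card_pow]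
  · congr 1
    rw [nsmul_eq_mul, Nat.cast_pow, mul_assoc]

theorem mann_even {q l j : ℕ} [NeZero q] [Fact l.Prime] (hq : 1 < q) (hql : Nat.Coprime l q)
    (hj : (l : ZMod q) ^ j = -1) (N : ℕ) (hN : 0 < N) (F : ZMod q → ℤ) (A : ℤ)
    (h0 : ∑ y, F y * F y = N + A) (hs : ∀ s, s ≠ 0 → ∑ y, F y * F (y + s) = A) :
    Even (padicValNat l N) := by
  have hlp : l.Prime := Fact.out
  induction N using Nat.strong_induction_on generalizing F A with
  | _ N ih =>
    by_cases hdvd : l ∣ N
    · have hch : CharP (AlgebraicClosure (ZMod l)) l :=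
        charP_of_injective_algebraMap
          (algebraMap (ZMod l) (AlgebraicClosure (ZMod l))).injective l
      obtain ⟨ψ, hψ⟩ := exists_prim q l hql
      have hz : ∀ a, a ≠ 0 → ft ψ F a = 0 := by
        intro a ha
        have h1 := ft_mul_neg hψ F N A h0 hs a ha
        have h2 : ft ψ F (-a) = ft ψ F a ^ (l ^ j) := by
          rw [ft_pow, hj, neg_one_mul]
        have h3 : (((N : ℤ) : ℤ) : AlgebraicClosure (ZMod l)) = 0 := by
          rw [Int.cast_natCast]
          exact (CharP.cast_eq_zero_iff (AlgebraicClosure (ZMod l)) l N).2 hdvd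
        rw [h2, h3] at h1
        rcases mul_eq_zero.1 h1 with h4 | h4
        · exact h4
        · exact pow_eq_zero_iff (pow_ne_zero j hlp.ne_zero) |>.1 h4
      have hc : ∀ y, (l : ℤ) ∣ F y - F 0 := fun y => const_mod hql hψ F hz y
      obtain ⟨F', N', A', hN', h0', hs', -⟩ := descend hq hlp.ne_zero F N A h0 hs hc
      have hl2 : (0 : ℤ) < (l : ℤ) ^ 2 := by
        have := hlp.pos
        positivity
      have hN'pos : 0 < N' := by
        have h5 : (0 : ℤ) < (l : ℤ) ^ 2 * N' := by
          rw [← hN']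
          exact_mod_cast hN
        exact (pos_iff_pos_of_mul_pos h5).1 hl2
      lift N' to ℕ using hN'pos.le
      have hN'pos' : 0 < N' := by exact_mod_cast hN'pos
      have hNN : N = l ^ 2 * N' := by exact_mod_cast hN'
      have hlt : N' < N := by
        rw [hNN]
        have h6 : 1 < l ^ 2 := Nat.one_lt_pow two_ne_zero hlp.one_lt
        nlinarith
      have h7 := ih N' hlt hN'pos' F' A' h0' hs'
      rw [hNN, padicValNat.mul (pow_ne_zero 2 hlp.ne_zero) hN'pos'.ne', padicValNat.prime_pow]
      exact Even.add (by decide) h7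
    · rw [padicValNat.eq_zero_of_not_dvd hdvd]
      exact Even.zero

end Pool.Agent.H12.GS
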