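import Pool.Agent.H12.GS.Conf1
import Pool.Agent.H12.GS.Frob

/-!
# Circulant conference matrices: multipliers

MODULE Conf2 (about 130 lines), imports Conf1, Frob, Const (statements may be used).

* `mult_prime`: `l` an odd prime not dividing `u`, `K = AlgebraicClosure (ZMod l)`, `ψ` primitive
  (`exists_prim`), `H = ft ψ h`. `H 0 = 0` (`sum_zero`). For `a ≠ 0`: `H a * H (-a) = u`
  (`ft_mul_neg` with `N = u`, `A = -1`, since `∑ h^2 = u - 1`), and `H (-a) = H a` as `h` is even
  (reindex the sum); so `H a ^ 2 = u`. `ft_pow` with `j = 1`: `H a ^ l = H (l a)`. With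
  `σ = (u : K) ^ ((l-1)/2)`: `H (l a) = H a * (H a ^ 2) ^ ((l-1)/2) = σ H a` for all `a` (also `a = 0`).
  `σ ^ 2 = u ^ (l-1) = 1` (Fermat in `ZMod l`), so `σ = 1` or `σ = -1`.
  By `ft_inv` with `g = l x`, `∑_a H a ψ (-(a (l x))) = u h (l x)`; and `∑_a H (l a) ψ (-(a (l x)))`
  `= ∑_b H b ψ (-(b x)) = u h x` (`b = l a`, `l` is a unit). So `h x = σ h (l x)` in `K`, so
  `h (l x) = σ h x`; the values are in `{0, 1, -1}` and `l ≥ 3`, so the equality holds in `ℤ`.
* `mult_all`: every odd natural number `m` coprime to `u`, by induction on the prime factorisation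
  (`Nat.recOnMul` or strong induction with `Nat.minFac`).
-/

set_option autoImplicit false

namespace Pool.Agent.H12.GS

open Finset
open Pool.Agent.H58.Mult (ft)

private theorem conf2_val {u : ℕ} [NeZero u] {h : ZMod u → ℤ} (hh : Conf u h) (x : ZMod u) :
    h x = 0 ∨ h x = 1 ∨ h x = -1 := by
  by_cases hx : x = 0
  · exact Or.inl (hx ▸ hh.zero)
  · exact Or.inr (hh.val x hx)

private theorem conf2_sq {u : ℕ} [NeZero u] {h : ZMod u → ℤ} (hh : Conf u h) :
    ∑ y, h y * h y = (u : ℤ) + (-1) := by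
  have h1 : ∀ y, h y * h y = 1 - (if y = 0 then 1 else 0) := by
    intro y
    split_ifs with hy
    · rw [hy, hh.zero]; norm_num
    · rcases hh.val y hy with h2 | h2 <;> rw [h2] <;> norm_num
  rw [Finset.sum_congr rfl fun y _ => h1 y, Finset.sum_sub_distrib, Finset.sum_ite_eq']
  simp [ZMod.card]
  ring

theorem Conf.mult_prime {u : ℕ} [NeZero u] {h : ZMod u → ℤ} (hh : Conf u h) (hu : u % 4 = 1)
    {l : ℕ} (hl : l.Prime) (hl2 : l ≠ 2) (hlu : Nat.Coprime l u) :
    ∃ σ : ℤ, (σ = 1 ∨ σ = -1) ∧ ∀ x, h ((l : ZMod u) * x) = σ * h x := by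
  have : Fact l.Prime := ⟨hl⟩
  have hodd : Odd l := hl.odd_of_ne_two hl2
  have hl3 : 3 ≤ l := by
    have := hl.two_le
    omega
  obtain ⟨k, hk⟩ := hodd
  obtain ⟨ψ, hψ⟩ := exists_prim u l hlu
  have huK : (u : AlgebraicClosure (ZMod l)) ≠ 0 := by
    have h1 : (u : ZMod l) ≠ 0 := by
      intro h0
      rw [ZMod.natCast_eq_zero_iff] at h0
      exact (Nat.Prime.coprime_iff_not_dvd hl).1 hlu h0
    intro h0
    apply h1
    have h2 : algebraMap (ZMod l) (AlgebraicClosure (ZMod l)) (u : ZMod l) = 0 := by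
      rw [map_natCast]; exact h0
    exact (map_eq_zero _).1 h2
  -- the transform
  have hH0 : ft ψ h 0 = 0 := by
    unfold ft
    have h1 : ∀ g : ZMod u, ((h g : ℤ) : AlgebraicClosure (ZMod l)) * ψ (0 * g) =
        ((h g : ℤ) : AlgebraicClosure (ZMod l)) := by
      intro g
      rw [zero_mul, AddChar.map_zero_eq_one, mul_one]
    rw [Finset.sum_congr rfl fun g _ => h1 g, ← Int.cast_sum, hh.sum_zero, Int.cast_zero]
  have hHneg : ∀ a, ft ψ h (-a) = ft ψ h a := by
    intro a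
    unfold ft
    rw [← Equiv.sum_comp (Equiv.neg (ZMod u))]
    refine Finset.sum_congr rfl fun g _ => ?_
    rw [Equiv.neg_apply, hh.even hu, neg_mul_neg]
  have hHsq : ∀ a, a ≠ 0 → ft ψ h a ^ 2 = (u : AlgebraicClosure (ZMod l)) := by
    intro a ha
    have h1 := ft_mul_neg hψ h (u : ℤ) (-1) (conf2_sq hh) hh.ac a ha
    rw [hHneg] at h1
    rw [sq, h1]
    push_cast
    rfl
  have hHl : ∀ a, ft ψ h ((l : ZMod u) * a) =
      (u : AlgebraicClosure (ZMod l)) ^ k * ft ψ h a := by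
    intro a
    have h1 := ft_pow ψ h 1 a
    rw [pow_one, pow_one] at h1
    rw [← h1]
    by_cases ha : a = 0
    · rw [ha, hH0, mul_zero, zero_pow hl.ne_zero]
    · rw [← hHsq a ha, ← pow_mul, ← pow_succ]
      exact congrArg (fun n : ℕ => ft ψ h a ^ n) hk
  have hσ2 : (u : AlgebraicClosure (ZMod l)) ^ k * (u : AlgebraicClosure (ZMod l)) ^ k = 1 := by
    have h1 : (u : ZMod l) ≠ 0 := by
      intro h0
      apply huK
      have h2 : algebraMap (ZMod l) (AlgebraicClosure (ZMod l)) (u : ZMod l) = 0 := by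
        rw [h0, map_zero]
      rwa [map_natCast] at h2
    have h2 := ZMod.pow_card_sub_one_eq_one h1
    have h3 := congrArg (algebraMap (ZMod l) (AlgebraicClosure (ZMod l))) h2
    rw [map_pow, map_natCast, map_one] at h3
    rw [← pow_add, ← h3]
    congr 1
    omega
  have hkey : ∀ x, ((h x : ℤ) : AlgebraicClosure (ZMod l)) =
      (u : AlgebraicClosure (ZMod l)) ^ k *
        ((h ((l : ZMod u) * x) : ℤ) : AlgebraicClosure (ZMod l)) := by
    intro x
    have h1 := Pool.Agent.H58.Mult.ft_inv hψ h x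
    have h2 := Pool.Agent.H58.Mult.ft_inv hψ h ((l : ZMod u) * x)
    have h3 : ∑ a, ft ψ h a * ψ (-(a * x)) =
        (u : AlgebraicClosure (ZMod l)) ^ k *
          ∑ a, ft ψ h a * ψ (-(a * ((l : ZMod u) * x))) := by
      rw [← Equiv.sum_comp (Units.mulLeft (ZMod.unitOfCoprime l hlu)), Finset.mul_sum]
      refine Finset.sum_congr rfl fun a _ => ?_
      rw [Units.mulLeft_apply, ZMod.coe_unitOfCoprime, hHl a]
      have h4 : (l : ZMod u) * a * x = a * ((l : ZMod u) * x) := by ring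
      rw [h4]
      ring
    rw [h1, h2] at h3
    have h5 : (u : AlgebraicClosure (ZMod l)) * ((h x : ℤ) : AlgebraicClosure (ZMod l)) =
        (u : AlgebraicClosure (ZMod l)) * ((u : AlgebraicClosure (ZMod l)) ^ k *
          ((h ((l : ZMod u) * x) : ℤ) : AlgebraicClosure (ZMod l))) := by
      rw [h3]
      ring
    exact mul_left_cancel₀ huK h5
  have hfin : ∀ s : ℤ, (s = 1 ∨ s = -1) →
      (u : AlgebraicClosure (ZMod l)) ^ k = ((s : ℤ) : AlgebraicClosure (ZMod l)) →
      ∀ x, h ((l : ZMod u) * x) = s * h x := by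
    intro s hs hsK x
    have h1 := hkey x
    rw [hsK] at h1
    have h2 : ((h x - s * h ((l : ZMod u) * x) : ℤ) : AlgebraicClosure (ZMod l)) = 0 := by
      push_cast
      rw [h1, sub_self]
    have : CharP (AlgebraicClosure (ZMod l)) l := by infer_instance
    rw [CharP.intCast_eq_zero_iff (AlgebraicClosure (ZMod l)) l] at h2
    obtain ⟨c, hc⟩ := h2
    have hl3' : (3 : ℤ) ≤ l := by exact_mod_cast hl3
    have h3 : h x - s * h ((l : ZMod u) * x) = 0 := by
      have hb : |h x - s * h ((l : ZMod u) * x)| ≤ 2 := by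
        rcases hs with rfl | rfl <;> rcases conf2_val hh x with h4 | h4 | h4 <;>
          rcases conf2_val hh ((l : ZMod u) * x) with h5 | h5 | h5 <;> rw [h4, h5] <;> norm_num
      rw [hc] at hb ⊢
      rw [abs_mul, abs_of_nonneg (by omega : (0 : ℤ) ≤ l)] at hb
      have hc0 : c = 0 := by
        by_contra hc0
        have : 1 ≤ |c| := Int.one_le_abs hc0
        nlinarith
      rw [hc0, mul_zero]
    rcases hs with rfl | rfl <;> linarith
  rcases mul_self_eq_one_iff.1 hσ2 with h1 | h1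
  · exact ⟨1, Or.inl rfl, hfin 1 (Or.inl rfl) (by rw [h1, Int.cast_one])⟩
  · exact ⟨-1, Or.inr rfl, hfin (-1) (Or.inr rfl) (by rw [h1, Int.cast_neg, Int.cast_one])⟩

theorem Conf.mult_all {u : ℕ} [NeZero u] {h : ZMod u → ℤ} (hh : Conf u h) (hu : u % 4 = 1)
    {m : ℕ} (hm : Odd m) (hmu : Nat.Coprime m u) :
    ∃ σ : ℤ, (σ = 1 ∨ σ = -1) ∧ ∀ x, h ((m : ZMod u) * x) = σ * h x := by
  induction m using Nat.recOnMul with
  | zero => simp at hm
  | one => exact ⟨1, Or.inl rfl, fun x => by simp⟩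
  | prime p hp => exact hh.mult_prime hu hp (by rintro rfl; exact absurd hm (by decide)) hmu
  | mul a b iha ihb =>
    obtain ⟨s, hs, hs'⟩ := iha (Nat.odd_mul.1 hm).1 (Nat.Coprime.coprime_mul_right hmu)
    obtain ⟨t, ht, ht'⟩ := ihb (Nat.odd_mul.1 hm).2 (Nat.Coprime.coprime_mul_left hmu)
    refine ⟨s * t, ?_, fun x => ?_⟩
    · rcases hs with rfl | rfl <;> rcases ht with rfl | rfl <;> norm_num
    · rw [Nat.cast_mul, mul_assoc, hs', ht', mul_assoc]

end Pool.Agent.H12.GS
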