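import Pool.Agent.H12.GS.Conf2

/-!
# Circulant conference matrices: the order is squarefree

MODULE Conf3 (about 100 lines), imports Conf2, Conf1 (statements may be used).

Suppose `p` is a prime with `p ^ 2 ∣ u`, `k = u / p` (so `p ∣ k`). `p ≥ 3` as `u` is odd.
`m = 1 + k + u` is odd (`k` and `u` are odd) and coprime to `u` (a prime dividing `u` divides `k`,
because `p ∣ k`, so it does not divide `m`), and `m = 1 + k` in `ZMod u`. `k ^ 2 = 0` in `ZMod u`
(`u = p k` divides `k^2`). So `(1 + k) ^ j = 1 + j k` in `ZMod u`, `(1 + k) ^ p = 1`.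
`mult_all`: `h ((1 + k) x) = σ h x`; iterating `p` times, `h x = σ ^ p h x` and `h 1 ≠ 0`
(`u > 1`), so `σ ^ p = 1`, `p` odd, `σ = 1`. So `h ((1 + j k) x) = h x` for all `j`.
For `x` with `p ∤ x.val` choose `j` with `j x.val ≡ 1` modulo `p`; then `j k x = k` in `ZMod u`, so
`h (x + k) = h x`. `B = {x : p ∣ x.val}` contains `0` and has `u / p` elements, so `no_period` with
`s = k ≠ 0` gives `u < 2 (u / p)`: contradiction.
-/

set_option autoImplicit false

namespace Pool.Agent.H12.GS

open Finset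

theorem Conf.squarefree {u : ℕ} [NeZero u] {h : ZMod u → ℤ} (hh : Conf u h) (hu : u % 4 = 1)
    (hu1 : 1 < u) {p : ℕ} (hp : p.Prime) : ¬ p ^ 2 ∣ u := by
  classical
  have : Fact p.Prime := ⟨hp⟩
  rintro ⟨c, hc⟩
  obtain ⟨k, hk⟩ : ∃ k, k = p * c := ⟨_, rfl⟩
  have huk : u = p * k := by rw [hc, hk]; ring
  have hupos : 0 < u := by omega
  have hkpos : 0 < k := by
    rcases Nat.eq_zero_or_pos k with h0 | h0
    · rw [huk, h0, mul_zero] at hupos
      omega
    · exact h0
  have huodd : Odd u := by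
    rw [Nat.odd_iff]
    omega
  have hpk : Odd p ∧ Odd k := by
    rw [huk, Nat.odd_mul] at huodd
    exact huodd
  have hp3 : 3 ≤ p := by
    have h2 := hp.two_le
    rcases Nat.lt_or_ge 2 p with h3 | h3
    · exact h3
    · have h4 : p = 2 := by omega
      have h5 := hpk.1
      rw [h4] at h5
      exact absurd h5 (by decide)
  have hkk : (k : ZMod u) * k = 0 := by
    have h1 : ((k * k : ℕ) : ZMod u) = 0 := by
      rw [ZMod.natCast_eq_zero_iff]
      exact ⟨c, by rw [hk, hc]; ring⟩
    rw [← h1]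
    push_cast
    rfl
  have hpk0 : (p : ZMod u) * k = 0 := by
    have h1 : ((p * k : ℕ) : ZMod u) = 0 := by
      rw [ZMod.natCast_eq_zero_iff]
      exact ⟨1, by rw [mul_one]; exact huk.symm⟩
    rw [← h1]
    push_cast
    rfl
  have hk0 : (k : ZMod u) ≠ 0 := by
    rw [Ne, ZMod.natCast_eq_zero_iff]
    intro h1
    have h2 := Nat.le_of_dvd hkpos h1
    nlinarith [huk]
  have hmodd : Odd (1 + k + u) := by
    have h1 := hpk.2
    rw [Nat.odd_iff] at h1 huodd ⊢
    omega
  have hmcop : Nat.Coprime (1 + k + u) u := by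
    rw [Nat.coprime_add_self_left]
    have h1 : Nat.Coprime (1 + k) k := by simp
    have h2 : Nat.Coprime (1 + k) p := Nat.Coprime.coprime_dvd_right ⟨c, hk⟩ h1
    rw [huk]
    exact Nat.Coprime.mul_right h2 h1
  obtain ⟨σ, hσ, hm⟩ := hh.mult_all hu hmodd hmcop
  have hm' : ∀ x, h ((1 + (k : ZMod u)) * x) = σ * h x := by
    intro x
    rw [← hm x]
    congr 2
    push_cast
    simp
  have hpow : ∀ j : ℕ, (1 + (k : ZMod u)) ^ j = 1 + (j : ZMod u) * k := by
    intro j
    induction j with
    | zero => simp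
    | succ j ih =>
      rw [pow_succ, ih]
      push_cast
      linear_combination (j : ZMod u) * hkk
  have hiter : ∀ (j : ℕ) (x : ZMod u), h ((1 + (j : ZMod u) * k) * x) = σ ^ j * h x := by
    intro j x
    rw [← hpow]
    induction j with
    | zero => simp
    | succ j ih =>
      rw [pow_succ', mul_assoc, hm', ih]
      ring
  have hone : (1 : ZMod u) ≠ 0 := by
    have : Fact (1 < u) := ⟨hu1⟩
    exact one_ne_zero
  have hσ1 : σ = 1 := by
    rcases hσ with h1 | h1
    · exact h1
    · exfalso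
      have h2 := hiter p 1
      rw [hpk0, add_zero, one_mul, h1, hpk.1.neg_one_pow] at h2
      rcases hh.val 1 hone with h3 | h3 <;> rw [h3] at h2 <;> norm_num at h2
  have hB : ∀ x, x ∉ univ.filter (fun x : ZMod u => p ∣ x.val) → h (x + (k : ZMod u)) = h x := by
    intro x hx
    have hx' : ¬ p ∣ x.val := by
      intro h1
      exact hx (mem_filter.2 ⟨mem_univ _, h1⟩)
    have hx0 : ((x.val : ℕ) : ZMod p) ≠ 0 := by
      rw [Ne, ZMod.natCast_eq_zero_iff]
      exact hx'
    obtain ⟨j, hj⟩ : ∃ j : ℕ, (j : ZMod p) = ((x.val : ℕ) : ZMod p)⁻¹ :=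
      ⟨(((x.val : ℕ) : ZMod p)⁻¹).val, ZMod.natCast_zmod_val _⟩
    obtain ⟨t, h1⟩ : (p : ℤ) ∣ ((j * x.val : ℕ) : ℤ) - 1 := by
      rw [← ZMod.intCast_zmod_eq_zero_iff_dvd]
      push_cast
      rw [hj, inv_mul_cancel₀ hx0, sub_self]
    have h2 : (j : ZMod u) * k * x = k := by
      have h3 := congrArg (fun z : ℤ => (z : ZMod u)) h1
      push_cast at h3
      rw [ZMod.natCast_zmod_val] at h3
      linear_combination (k : ZMod u) * h3 + (t : ZMod u) * hpk0
    have h4 := hiter j x
    rw [hσ1, one_pow, one_mul, add_mul, one_mul, h2] at h4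
    exact h4
  have hcard : (univ.filter (fun x : ZMod u => p ∣ x.val)).card ≤ k := by
    have hsub : univ.filter (fun x : ZMod u => p ∣ x.val) ⊆
        (range k).image (fun i : ℕ => ((p * i : ℕ) : ZMod u)) := by
      intro x hx
      obtain ⟨i, hi⟩ := (mem_filter.1 hx).2
      refine mem_image.2 ⟨i, ?_, ?_⟩
      · rw [mem_range]
        have h1 : x.val < u := ZMod.val_lt x
        rw [hi] at h1
        rw [huk] at h1
        exact lt_of_mul_lt_mul_left h1 (Nat.zero_le p)
      · rw [← hi, ZMod.natCast_zmod_val]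
    calc _ ≤ ((range k).image (fun i : ℕ => ((p * i : ℕ) : ZMod u))).card := card_le_card hsub
      _ ≤ (range k).card := card_image_le
      _ = k := card_range k
  have hfin := hh.no_period (k : ZMod u) hk0 _
    (mem_filter.2 ⟨mem_univ _, by rw [ZMod.val_zero]; exact dvd_zero p⟩) hB
  nlinarith [huk]

end Pool.Agent.H12.GS
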