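import Pool.Agent.H12.HD.Core

/-!
# Autocorrelations of fibre sums

MODULE Fib (about 110 lines), Mathlib (and H12/HD/Core for `Had`).

* `fib g y` is the sum of `g` over the fibre of `ZMod v → ZMod r` above `y`.
* `fib_ac`: `∑_y fib g y * fib g (y + s) = ∑_{(x, x'), x' ↦ (image of x) + s} g x g x'
  = ∑_{d ↦ s} ∑_x g x g (x + d)` (put `x' = x + d`, `castHom` is additive). The fibre above `s` has
  `v / r` elements (`castHom` is a surjective additive homomorphism; e.g.
  `card_fib` by translation: all fibres have the same number of elements, and there are `r`).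
  If `s ≠ 0` no `d` is `0`; if `s = 0`, exactly one is.
* `prod_ac`: `∑_x (∑_y G (x,y)) (∑_z G (x+s,z)) = ∑_d ∑_{(x,y)} G (x,y) G (x+s,y+d)`, and each inner
  sum is `-1`.
-/

set_option autoImplicit false

namespace Pool.Agent.H12.GS

open Finset
open Pool.Agent.H12.HD (Had)

/-- sums over the fibres of the reduction map -/
def fib {v r : ℕ} [NeZero v] [NeZero r] (hr : r ∣ v) (g : ZMod v → ℤ) (y : ZMod r) : ℤ :=
  ∑ x ∈ univ.filter (fun x : ZMod v => ZMod.castHom hr (ZMod r) x = y), g x

theorem card_fib {v r : ℕ} [NeZero v] [NeZero r] (hr : r ∣ v) (y : ZMod r) :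
    (univ.filter (fun x : ZMod v => ZMod.castHom hr (ZMod r) x = y)).card = v / r := by
  classical
  have hsurj : Function.Surjective (ZMod.castHom hr (ZMod r)) := ZMod.castHom_surjective hr
  have hall : ∀ z : ZMod r,
      (univ.filter (fun x : ZMod v => ZMod.castHom hr (ZMod r) x = z)).card =
        (univ.filter (fun x : ZMod v => ZMod.castHom hr (ZMod r) x = y)).card := by
    intro z
    obtain ⟨a, ha⟩ := hsurj (y - z)
    refine Finset.card_bij (fun x _ => x + a) ?_ ?_ ?_
    · intro x hx
      simp only [mem_filter, mem_univ, true_and] at hx ⊢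
      rw [map_add, hx, ha]
      ring
    · intro x _ x' _ h
      exact add_right_cancel h
    · intro x hx
      simp only [mem_filter, mem_univ, true_and] at hx
      refine ⟨x - a, ?_, by ring⟩
      simp only [mem_filter, mem_univ, true_and]
      rw [map_sub, hx, ha]
      ring
  have hsum : (univ : Finset (ZMod v)).card =
      ∑ z : ZMod r, (univ.filter (fun x : ZMod v => ZMod.castHom hr (ZMod r) x = z)).card :=
    Finset.card_eq_sum_card_fiberwise (fun x _ => mem_univ _)
  rw [Finset.sum_congr rfl (fun z _ => hall z), Finset.sum_const, card_univ, card_univ,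
    ZMod.card, ZMod.card, smul_eq_mul] at hsum
  exact (Nat.div_eq_of_eq_mul_right (Nat.pos_of_ne_zero (NeZero.ne r)) hsum).symm

private theorem fib_shift {v r : ℕ} [NeZero v] [NeZero r] (hr : r ∣ v) (g : ZMod v → ℤ)
    (x : ZMod v) (s : ZMod r) :
    fib hr g (ZMod.castHom hr (ZMod r) x + s) =
      ∑ d ∈ univ.filter (fun d : ZMod v => ZMod.castHom hr (ZMod r) d = s), g (x + d) := by
  unfold fib
  symm
  refine Finset.sum_bij (fun d _ => x + d) ?_ ?_ ?_ ?_
  · intro d hd
    simp only [mem_filter, mem_univ, true_and] at hd ⊢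
    rw [map_add, hd]
  · intro d _ d' _ h
    exact add_left_cancel h
  · intro z hz
    simp only [mem_filter, mem_univ, true_and] at hz
    refine ⟨z - x, ?_, by ring⟩
    simp only [mem_filter, mem_univ, true_and]
    rw [map_sub, hz]
    ring
  · intro d _
    rfl

private theorem fib_key {v r : ℕ} [NeZero v] [NeZero r] (hr : r ∣ v) (g : ZMod v → ℤ)
    (s : ZMod r) :
    ∑ y, fib hr g y * fib hr g (y + s) =
      ∑ d ∈ univ.filter (fun d : ZMod v => ZMod.castHom hr (ZMod r) d = s),
        ∑ x, g x * g (x + d) := by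
  have h1 : ∀ y : ZMod r, fib hr g y * fib hr g (y + s) =
      ∑ x ∈ univ.filter (fun x : ZMod v => ZMod.castHom hr (ZMod r) x = y),
        g x * fib hr g (ZMod.castHom hr (ZMod r) x + s) := by
    intro y
    conv_lhs => rw [fib]
    rw [Finset.sum_mul]
    refine Finset.sum_congr rfl fun x hx => ?_
    rw [(mem_filter.1 hx).2]
  rw [Finset.sum_congr rfl fun y _ => h1 y, Finset.sum_fiberwise, Finset.sum_comm]
  refine Finset.sum_congr rfl fun x _ => ?_
  rw [fib_shift, Finset.mul_sum]

theorem fib_ac {v r : ℕ} [NeZero v] [NeZero r] (hr : r ∣ v) (g : ZMod v → ℤ) (A : ℤ)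
    (hA : ∀ s, s ≠ 0 → ∑ x, g x * g (x + s) = A) :
    (∀ s, s ≠ 0 → ∑ y, fib hr g y * fib hr g (y + s) = ((v / r : ℕ) : ℤ) * A) ∧
      ∑ y, fib hr g y * fib hr g y = ∑ x, g x * g x + (((v / r : ℕ) : ℤ) - 1) * A := by
  constructor
  · intro s hs
    rw [fib_key, Finset.sum_congr rfl (fun d hd => hA d ?_), Finset.sum_const, card_fib,
      nsmul_eq_mul]
    rintro rfl
    rw [mem_filter, map_zero] at hd
    exact hs hd.2.symm
  · have h0 := fib_key hr g 0
    simp only [add_zero] at h0
    have hmem : (0 : ZMod v) ∈ univ.filter (fun d : ZMod v => ZMod.castHom hr (ZMod r) d = 0) :=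
      mem_filter.2 ⟨mem_univ _, map_zero _⟩
    rw [h0, ← Finset.add_sum_erase _ _ hmem, Finset.sum_congr rfl (fun d hd => hA d ?_),
      Finset.sum_const, Finset.card_erase_of_mem hmem, card_fib, nsmul_eq_mul]
    · have hpos : 0 < v / r :=
        Nat.div_pos (Nat.le_of_dvd (Nat.pos_of_ne_zero (NeZero.ne v)) hr)
          (Nat.pos_of_ne_zero (NeZero.ne r))
      rw [Nat.cast_sub hpos]
      simp
    · exact (mem_erase.1 hd).1

theorem prod_ac {B C : Type*} [AddCommGroup B] [Fintype B] [AddCommGroup C] [Fintype C]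
    (G : B × C → ℤ) (hG : Had G) (s : B) (hs : s ≠ 0) :
    ∑ x, (∑ y, G (x, y)) * (∑ y, G (x + s, y)) = -(Fintype.card C : ℤ) := by
  have h1 : ∀ x : B, (∑ y, G (x, y)) * (∑ y, G (x + s, y)) =
      ∑ d : C, ∑ y, G (x, y) * G (x + s, y + d) := by
    intro x
    rw [Finset.sum_mul, Finset.sum_comm]
    refine Finset.sum_congr rfl fun y _ => ?_
    rw [Finset.mul_sum, ← Equiv.sum_comp (Equiv.addLeft y)]
    rfl
  rw [Finset.sum_congr rfl fun x _ => h1 x, Finset.sum_comm]
  have h2 : ∀ d : C, ∑ x : B, ∑ y, G (x, y) * G (x + s, y + d) = -1 := by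
    intro d
    have h3 := hG.ac (s, d) (by
      intro h
      exact hs (congrArg Prod.fst h))
    rw [← h3, Fintype.sum_prod_type]
    rfl
  rw [Finset.sum_congr rfl fun d _ => h2 d, Finset.sum_const, card_univ, nsmul_eq_mul]
  ring

end Pool.Agent.H12.GS
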