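import Pool.Agent.H12.GS.Conf3
import Pool.Agent.H12.GS.Fib

/-!
# Circulant conference matrices: the order is prime

MODULE Conf4 (about 90 lines), imports Conf3, Conf1, Const, Fib (statements may be used).

If `u` is not prime, take a prime `p ∣ u`, `u = p k`, `k > 1`, and a prime `l ∣ k`; `l ≠ p` by
`Conf.squarefree`. Let `F = fib h` on `ZMod p`. By `fib_ac` (`A = -1`, `∑ h^2 = u - 1`):
`∑ F y F (y+s) = -k` for `s ≠ 0`, `∑ F y F y = u - 1 - (k - 1) = u - k`; so the data `N = u`,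
`A = -k`. `F` is even (`h` is even, `Conf.even`, and the fibre above `-y` is minus the fibre above `y`).
With `ψ` primitive on `ZMod p` over `AlgebraicClosure (ZMod l)`: for `a ≠ 0`,
`ft F a * ft F (-a) = u = 0` and `ft F (-a) = ft F a`, so `ft F a = 0`; `const_mod`, `descend`:
`l ^ 2 ∣ u`, against `Conf.squarefree`.
-/

set_option autoImplicit false

namespace Pool.Agent.H12.GS

open Finset

private theorem fib_even {u p : ℕ} [NeZero u] [NeZero p] (hr : p ∣ u) {h : ZMod u → ℤ}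
    (hev : ∀ s, h (-s) = h s) (y : ZMod p) : fib hr h (-y) = fib hr h y := by
  unfold fib
  refine Finset.sum_bij (fun x _ => -x) ?_ ?_ ?_ ?_
  · intro x hx
    simp only [mem_filter, mem_univ, true_and] at hx ⊢
    rw [map_neg, hx, neg_neg]
  · intro x _ x' _ h
    exact neg_injective h
  · intro x hx
    simp only [mem_filter, mem_univ, true_and] at hx
    refine ⟨-x, ?_, neg_neg x⟩
    simp only [mem_filter, mem_univ, true_and]
    rw [map_neg, hx]
  · intro x _
    exact (hev x).symm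

private theorem ft_even {p : ℕ} [NeZero p] {R : Type*} [CommRing R] [IsDomain R] (ψ : AddChar (ZMod p) R)
    {F : ZMod p → ℤ} (hF : ∀ y, F (-y) = F y) (a : ZMod p) :
    Pool.Agent.H58.Mult.ft ψ F (-a) = Pool.Agent.H58.Mult.ft ψ F a := by
  unfold Pool.Agent.H58.Mult.ft
  rw [← Equiv.sum_comp (Equiv.neg (ZMod p))]
  refine Finset.sum_congr rfl fun y _ => ?_
  rw [Equiv.neg_apply, hF, neg_mul_neg]

theorem Conf.prime {u : ℕ} [NeZero u] {h : ZMod u → ℤ} (hh : Conf u h) (hu : u % 4 = 1)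
    (hu1 : 1 < u) : u.Prime := by
  by_contra hnp
  obtain ⟨p, hp, k, hk⟩ := Nat.exists_prime_and_dvd (show u ≠ 1 by omega)
  have hupos : 0 < u := by omega
  have hk1 : k ≠ 1 := by
    rintro rfl
    rw [mul_one] at hk
    rw [hk] at hnp
    exact hnp hp
  have hkpos : 0 < k := by
    rcases Nat.eq_zero_or_pos k with h0 | h0
    · rw [hk, h0, mul_zero] at hupos
      omega
    · exact h0
  obtain ⟨l, hl, hlk⟩ := Nat.exists_prime_and_dvd hk1
  have hlu : l ∣ u := hk ▸ hlk.mul_left p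
  have hlp : l ≠ p := by
    rintro rfl
    apply hh.squarefree hu hu1 hp
    rw [hk, pow_two]
    exact Nat.mul_dvd_mul_left l hlk
  have : Fact l.Prime := ⟨hl⟩
  have : Fact p.Prime := ⟨hp⟩
  have : NeZero p := ⟨hp.ne_zero⟩
  have hcop : Nat.Coprime l p := (Nat.coprime_primes hl hp).2 hlp
  have hr : p ∣ u := ⟨k, hk⟩
  obtain ⟨h1, h2⟩ := fib_ac hr h (-1) hh.ac
  have hdiv : u / p = k := by rw [hk, Nat.mul_div_cancel_left _ hp.pos]
  rw [hdiv] at h1 h2
  have hsq : ∑ x : ZMod u, h x * h x = (u : ℤ) - 1 := by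
    have h3 : ∀ x : ZMod u, h x * h x = 1 - (if x = 0 then 1 else 0) := by
      intro x
      split_ifs with h0
      · rw [h0, hh.zero]
        norm_num
      · rcases hh.val x h0 with h4 | h4 <;> rw [h4] <;> norm_num
    rw [Finset.sum_congr rfl fun x _ => h3 x, Finset.sum_sub_distrib]
    simp
  have hN0 : ∑ y, fib hr h y * fib hr h y = (u : ℤ) + (-(k : ℤ)) := by
    rw [h2, hsq]
    ring
  have hNs : ∀ s, s ≠ 0 → ∑ y, fib hr h y * fib hr h (y + s) = -(k : ℤ) := by
    intro s hs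
    rw [h1 s hs]
    ring
  obtain ⟨ψ, hψ⟩ := exists_prim p l hcop
  have hu0 : ((u : ℤ) : AlgebraicClosure (ZMod l)) = 0 := by
    rw [Int.cast_natCast]
    exact (CharP.cast_eq_zero_iff (AlgebraicClosure (ZMod l)) l u).2 hlu
  have hft : ∀ a, a ≠ 0 → Pool.Agent.H58.Mult.ft ψ (fib hr h) a = 0 := by
    intro a ha
    have h3 := ft_mul_neg hψ (fib hr h) (u : ℤ) (-(k : ℤ)) hN0 hNs a ha
    rw [ft_even ψ (fib_even hr (hh.even hu)) a, hu0] at h3
    exact mul_self_eq_zero.1 h3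
  have hc := const_mod hcop hψ (fib hr h) hft
  obtain ⟨F', N', A', hN, -, -, -⟩ :=
    descend hp.one_lt hl.ne_zero (fib hr h) (u : ℤ) (-(k : ℤ)) hN0 hNs hc
  apply hh.squarefree hu hu1 hl
  have h5 : ((l ^ 2 : ℕ) : ℤ) ∣ (u : ℤ) := ⟨N', by rw [hN]; push_cast; rfl⟩
  exact Int.natCast_dvd_natCast.1 h5

end Pool.Agent.H12.GS
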