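import Pool.Agent.H58.Mult.Comb

/-!
# Functions on `ZMod q` all whose nontrivial Fourier coefficients vanish modulo a prime `l`

MODULE Const (about 120 lines), Mathlib and H58/Mult/Comb only (`ft`, `sum_ψ`, `ft_inv` are there).

* `exists_prim`: `AlgebraicClosure (ZMod l)` has a primitive `q`-th root of unity `ζ`
  (`HasEnoughRootsOfUnity`, Mathlib.RingTheory.RootsOfUnity.AlgebraicallyClosed; `(q : K) ≠ 0` since
  `l` does not divide `q`), and `AddChar.zmodChar_primitive_of_primitive_root`.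
* `ft_mul_neg`: expand, put `x = y + s`: the product is `∑_s ψ (a s) ∑_y F y F (y + s)`
  `= N + A ∑_s ψ (a s)` and the last sum is `0` (`sum_ψ`).
* `const_mod`: by `ft_inv`, `q F(y) = ∑_a ft F a ψ(-(a y)) = ft F 0` in `K`, the same for `F 0`;
  so `q (F y - F 0) = 0` in `K`, `(q : K) ≠ 0`, and `CharP.intCast_eq_zero_iff`.
* `descend`: `F y = c + l F' y` with `c = F 0`; for every `s`:
  `∑ F y F (y+s) = c^2 q + 2 c l ∑ F' + l^2 ∑ F' y F' (y+s)`. Take `A' = ∑ F' y F' (y+1)`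
  (`1 ≠ 0` in `ZMod q`), `N' = ∑ F' y F' y - A'`.
-/

set_option autoImplicit false

namespace Pool.Agent.H12.GS

open Finset
open Pool.Agent.H58.Mult (ft)

theorem exists_prim (q l : ℕ) [NeZero q] [Fact l.Prime] (hql : Nat.Coprime l q) :
    ∃ ψ : AddChar (ZMod q) (AlgebraicClosure (ZMod l)), ψ.IsPrimitive := by
  have h1 : ((q : ℕ) : AlgebraicClosure (ZMod l)) ≠ 0 := by
    intro h
    have h2 := (CharP.cast_eq_zero_iff (AlgebraicClosure (ZMod l)) l q).1 h
    have h3 := Nat.dvd_gcd (dvd_refl l) h2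
    rw [hql] at h3
    exact (Fact.out (p := l.Prime)).one_lt.ne' (Nat.dvd_one.1 h3)
  have : NeZero ((q : ℕ) : AlgebraicClosure (ZMod l)) := ⟨h1⟩
  obtain ⟨ζ, hζ⟩ := HasEnoughRootsOfUnity.exists_primitiveRoot (AlgebraicClosure (ZMod l)) q
  exact ⟨_, AddChar.zmodChar_primitive_of_primitive_root q hζ⟩

theorem ft_mul_neg {q : ℕ} [NeZero q] {R : Type*} [CommRing R] [IsDomain R]
    {ψ : AddChar (ZMod q) R} (hψ : ψ.IsPrimitive) (F : ZMod q → ℤ) (N A : ℤ)
    (h0 : ∑ y, F y * F y = N + A) (hs : ∀ s, s ≠ 0 → ∑ y, F y * F (y + s) = A)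
    (a : ZMod q) (ha : a ≠ 0) : ft ψ F a * ft ψ F (-a) = (N : R) := by
  have e1 : ft ψ F a * ft ψ F (-a) =
      ∑ y, ∑ s, ((F y : ℤ) : R) * ((F (y + s) : ℤ) : R) * ψ (a * s) := by
    unfold ft
    rw [Finset.sum_mul_sum, Finset.sum_comm]
    refine Finset.sum_congr rfl fun y _ => ?_
    rw [← Equiv.sum_comp (Equiv.addLeft y)]
    refine Finset.sum_congr rfl fun s _ => ?_
    rw [Equiv.coe_addLeft]
    have e2 : ψ (a * (y + s)) * ψ (-a * y) = ψ (a * s) := by
      rw [← AddChar.map_add_eq_mul]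
      congr 1
      ring
    rw [← e2]
    ring
  have e3 : ∀ s : ZMod q, ∑ y, ((F y : ℤ) : R) * ((F (y + s) : ℤ) : R) * ψ (a * s) =
      (if s = 0 then (N : R) else 0) + (A : R) * ψ (a * s) := by
    intro s
    rw [← Finset.sum_mul]
    have e4 : ∑ y, ((F y : ℤ) : R) * ((F (y + s) : ℤ) : R) =
        ((∑ y, F y * F (y + s) : ℤ) : R) := by
      push_cast
      rfl
    rw [e4]
    by_cases h : s = 0
    · subst h
      have e5 : ∑ y, F y * F (y + 0) = N + A := by simpa using h0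
      rw [e5, if_pos rfl, mul_zero, AddChar.map_zero_eq_one]
      push_cast
      ring
    · rw [hs s h, if_neg h, zero_add]
  rw [e1, Finset.sum_comm]
  simp_rw [e3]
  rw [Finset.sum_add_distrib, Finset.sum_ite_eq' Finset.univ (0 : ZMod q), ← Finset.mul_sum,
    Pool.Agent.H58.Mult.sum_ψ hψ, if_neg ha]
  simp

theorem const_mod {q l : ℕ} [NeZero q] [Fact l.Prime] (hql : Nat.Coprime l q)
    {ψ : AddChar (ZMod q) (AlgebraicClosure (ZMod l))} (hψ : ψ.IsPrimitive) (F : ZMod q → ℤ)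
    (h : ∀ a, a ≠ 0 → ft ψ F a = 0) (y : ZMod q) : (l : ℤ) ∣ F y - F 0 := by
  have h1 : ((q : ℕ) : AlgebraicClosure (ZMod l)) ≠ 0 := by
    intro h
    have h2 := (CharP.cast_eq_zero_iff (AlgebraicClosure (ZMod l)) l q).1 h
    have h3 := Nat.dvd_gcd (dvd_refl l) h2
    rw [hql] at h3
    exact (Fact.out (p := l.Prime)).one_lt.ne' (Nat.dvd_one.1 h3)
  have e1 : ∀ z : ZMod q, (q : AlgebraicClosure (ZMod l)) * (F z : AlgebraicClosure (ZMod l)) =
      ft ψ F 0 := by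
    intro z
    rw [← Pool.Agent.H58.Mult.ft_inv hψ F z, Finset.sum_eq_single 0]
    · rw [zero_mul, neg_zero, AddChar.map_zero_eq_one, mul_one]
    · intro a _ ha
      rw [h a ha, zero_mul]
    · exact fun h => absurd (Finset.mem_univ _) h
  have e2 : ((F y - F 0 : ℤ) : AlgebraicClosure (ZMod l)) = 0 := by
    have e3 : (q : AlgebraicClosure (ZMod l)) *
        ((F y : AlgebraicClosure (ZMod l)) - (F 0 : AlgebraicClosure (ZMod l))) = 0 := by
      rw [mul_sub, e1 y, e1 0, sub_self]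
    push_cast
    exact (mul_eq_zero.1 e3).resolve_left h1
  exact (CharP.intCast_eq_zero_iff (AlgebraicClosure (ZMod l)) l _).1 e2

theorem descend {q l : ℕ} [NeZero q] (hq : 1 < q) (hl : l ≠ 0) (F : ZMod q → ℤ) (N A : ℤ)
    (h0 : ∑ y, F y * F y = N + A) (hs : ∀ s, s ≠ 0 → ∑ y, F y * F (y + s) = A)
    (hc : ∀ y, (l : ℤ) ∣ F y - F 0) :
    ∃ (F' : ZMod q → ℤ) (N' A' : ℤ), N = (l : ℤ) ^ 2 * N' ∧ (∑ y, F' y * F' y = N' + A') ∧
      (∀ s, s ≠ 0 → ∑ y, F' y * F' (y + s) = A') ∧ ∀ y, F y = F 0 + l * F' y := by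
  choose F' hF' using hc
  have hF : ∀ y, F y = F 0 + l * F' y := fun y => by
    have := hF' y
    linarith
  have hshift : ∀ s : ZMod q, ∑ y, F' (y + s) = ∑ y, F' y := fun s =>
    Equiv.sum_comp (Equiv.addRight s) F'
  have key : ∀ s : ZMod q, ∑ y, F y * F (y + s) =
      (q : ℤ) * F 0 ^ 2 + 2 * F 0 * l * (∑ y, F' y) + (l : ℤ) ^ 2 * ∑ y, F' y * F' (y + s) := by
    intro s
    have e1 : ∀ y, F y * F (y + s) = F 0 ^ 2 + F 0 * l * F' y + F 0 * l * F' (y + s) +
        (l : ℤ) ^ 2 * (F' y * F' (y + s)) := fun y => by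
      rw [hF y, hF (y + s)]
      ring
    simp_rw [e1]
    rw [Finset.sum_add_distrib, Finset.sum_add_distrib, Finset.sum_add_distrib,
      Finset.sum_const, Finset.card_univ, ZMod.card, ← Finset.mul_sum, ← Finset.mul_sum,
      ← Finset.mul_sum, hshift, nsmul_eq_mul]
    ring
  have hl2 : ((l : ℤ) ^ 2) ≠ 0 := pow_ne_zero _ (by exact_mod_cast hl)
  have h1ne : (1 : ZMod q) ≠ 0 := by
    have : Fact (1 < q) := ⟨hq⟩
    exact one_ne_zero
  have k0 := key 0
  simp only [add_zero] at k0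
  rw [h0] at k0
  have k1 := key 1
  rw [hs 1 h1ne] at k1
  refine ⟨F', (∑ y, F' y * F' y) - ∑ y, F' y * F' (y + 1), ∑ y, F' y * F' (y + 1), ?_, ?_, ?_, hF⟩
  · linear_combination k0 - k1
  · ring
  · intro s hs0
    have k2 := key s
    rw [hs s hs0, k1] at k2
    have k3 := add_left_cancel k2
    exact (mul_left_cancel₀ hl2 k3).symm

end Pool.Agent.H12.GS
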