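import Mathlib

/-!
# Rigidity

MODULE Rigid (about 120 lines), Mathlib only.

`e, t : ZMod u → ℤ`, `e x = 1` or `-1`, `F x = e x + 2 n t x`, and
(T) `(∑ F)^2 = 1`, (N) `∑ F^2 = (u-1) q + 1`, (A) `∑_x F x F (x+s) = -q` for `s ≠ 0`, `q = a n + 1`.
Put `M = ∑ t^2`, `J = ∑ e t`.
* `norm_eq'`: expand (N) with `e^2 = 1`: `u + 4 n J + 4 n^2 M = (u-1)(a n + 1) + 1`; cancel `n`.
* `J_le`: `|e t| = |t| ≤ t^2` termwise.
* `M_pos`: if `M = 0` then `t = 0`, `J = 0`, so `(u - 1) a = 0`.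
* `rigid`: expand (A): `∑ e e' + 2 n ∑ (e t' + t e') + 4 n^2 ∑ t t' = -q`, where `|∑ e e'| ≤ u`,
  `|∑ e t'| ≤ ∑ |t'| ≤ M`, `|∑ t e'| ≤ M`. So `4 n^2 |∑ t t'| ≤ q + u + 4 n M < 4 n^2`.
  Then `(∑ t)^2 = ∑_s ∑_x t x t (x+s) = M`.
* `sum_le`: `|2 n ∑ t| ≤ 1 + |∑ e| ≤ 1 + u`.
-/

set_option autoImplicit false

namespace Pool.Agent.H12.GS

open Finset

variable {u : ℕ} [NeZero u]

/-- the equations satisfied by the fibre sums -/
structure Row (u : ℕ) [NeZero u] (a n : ℕ) (e t : ZMod u → ℤ) : Prop where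
  e_val : ∀ x, e x = 1 ∨ e x = -1
  sum_sq : (∑ x, (e x + 2 * n * t x)) ^ 2 = 1
  norm : ∑ x, (e x + 2 * n * t x) ^ 2 = ((u : ℤ) - 1) * (a * n + 1) + 1
  ac : ∀ s, s ≠ 0 → ∑ x, (e x + 2 * n * t x) * (e (x + s) + 2 * n * t (x + s)) = -(a * n + 1)

private lemma rigid_abs {a n : ℕ} {e t : ZMod u → ℤ} (hR : Row u a n e t) (x : ZMod u) :
    |e x| = 1 := by
  rcases hR.e_val x with h | h <;> rw [h] <;> simp

private lemma rigid_sq {a n : ℕ} {e t : ZMod u → ℤ} (hR : Row u a n e t) (x : ZMod u) :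
    e x ^ 2 = 1 := by
  rw [← sq_abs, rigid_abs hR, one_pow]

private lemma rigid_abs_le (z : ℤ) : |z| ≤ z ^ 2 := by
  rw [← sq_abs]
  nlinarith [abs_nonneg z, sq_nonneg (|z| - 1), Int.abs_lt_one_iff (a := z),
    Int.le_self_sq |z|]

private lemma rigid_card : ∑ _x : ZMod u, (1 : ℤ) = u := by
  rw [Finset.sum_const, Finset.card_univ, ZMod.card, nsmul_eq_mul, mul_one]

theorem Row.norm_eq {a n : ℕ} {e t : ZMod u → ℤ} (hR : Row u a n e t) (hn : 0 < n) :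
    ((u : ℤ) - 1) * a = 4 * (n * ∑ x, t x ^ 2 + ∑ x, e x * t x) := by
  have h1 : ∑ x, (e x + 2 * n * t x) ^ 2 =
      (u : ℤ) + 4 * n * ∑ x, e x * t x + 4 * n ^ 2 * ∑ x, t x ^ 2 := by
    have h2 : ∀ x, (e x + 2 * n * t x) ^ 2 = 1 + 4 * n * (e x * t x) + 4 * n ^ 2 * t x ^ 2 := by
      intro x
      linear_combination rigid_sq hR x
    simp only [h2, Finset.sum_add_distrib, ← Finset.mul_sum, rigid_card]
  have h3 := hR.norm
  rw [h1] at h3
  have hn' : (n : ℤ) ≠ 0 := by exact_mod_cast hn.ne'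
  refine mul_left_cancel₀ hn' ?_
  linear_combination -h3

theorem Row.J_le {a n : ℕ} {e t : ZMod u → ℤ} (hR : Row u a n e t) :
    |∑ x, e x * t x| ≤ ∑ x, t x ^ 2 := by
  refine (Finset.abs_sum_le_sum_abs _ _).trans (Finset.sum_le_sum fun x _ => ?_)
  rw [abs_mul, rigid_abs hR, one_mul]
  exact rigid_abs_le _

theorem Row.M_pos {a n : ℕ} {e t : ZMod u → ℤ} (hR : Row u a n e t) (hn : 0 < n) (ha : 0 < a)
    (hu : 1 < u) : 1 ≤ ∑ x, t x ^ 2 := by
  by_contra hcon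
  have h0 : ∑ x, t x ^ 2 = 0 :=
    le_antisymm (by omega) (Finset.sum_nonneg fun x _ => sq_nonneg _)
  have h1 := hR.norm_eq hn
  have h2 := hR.J_le
  rw [h0] at h1 h2
  have h3 : ∑ x, e x * t x = 0 := abs_eq_zero.1 (le_antisymm h2 (abs_nonneg _))
  rw [h3, mul_zero, add_zero, mul_zero] at h1
  have h4 : (0 : ℤ) < (u : ℤ) - 1 := by
    have : (1 : ℤ) < u := by exact_mod_cast hu
    linarith
  have h5 : (0 : ℤ) < a := by exact_mod_cast ha
  have := mul_pos h4 h5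
  linarith

theorem Row.rigid {a n : ℕ} {e t : ZMod u → ℤ} (hR : Row u a n e t) (hn : 0 < n)
    (hsize : ((a * n + 1 : ℕ) : ℤ) + u + 4 * n * ∑ x, t x ^ 2 < 4 * (n : ℤ) ^ 2) :
    (∀ s, s ≠ 0 → ∑ x, t x * t (x + s) = 0) ∧ (∑ x, t x) ^ 2 = ∑ x, t x ^ 2 := by
  set M : ℤ := ∑ x, t x ^ 2 with hM
  have hab : ∑ x, |t x| ≤ M := Finset.sum_le_sum fun x _ => rigid_abs_le _
  have hzero : ∀ s, s ≠ 0 → ∑ x, t x * t (x + s) = 0 := by
    intro s hs
    have h1 := hR.ac s hs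
    have h2 : ∑ x, (e x + 2 * n * t x) * (e (x + s) + 2 * n * t (x + s)) =
        ∑ x, e x * e (x + s) + 2 * n * (∑ x, e x * t (x + s) + ∑ x, t x * e (x + s)) +
          4 * n ^ 2 * ∑ x, t x * t (x + s) := by
      rw [← Finset.sum_add_distrib, Finset.mul_sum, Finset.mul_sum, ← Finset.sum_add_distrib,
        ← Finset.sum_add_distrib]
      refine Finset.sum_congr rfl fun x _ => ?_
      ring
    have h3 : |∑ x, e x * e (x + s)| ≤ u := by
      refine (Finset.abs_sum_le_sum_abs _ _).trans (le_of_eq ?_)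
      simp only [abs_mul, rigid_abs hR, mul_one, rigid_card]
    have h4 : |∑ x, e x * t (x + s)| ≤ M := by
      refine (Finset.abs_sum_le_sum_abs _ _).trans (le_trans (le_of_eq ?_) hab)
      simp only [abs_mul, rigid_abs hR, one_mul]
      exact Equiv.sum_comp (Equiv.addRight s) fun x => |t x|
    have h5 : |∑ x, t x * e (x + s)| ≤ M := by
      refine (Finset.abs_sum_le_sum_abs _ _).trans (le_trans (le_of_eq ?_) hab)
      simp only [abs_mul, rigid_abs hR, mul_one]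
    rw [h2] at h1
    push_cast at hsize
    have hn0 : (0 : ℤ) < n := by exact_mod_cast hn
    obtain ⟨a1, a2⟩ := abs_le.1 h3
    obtain ⟨b1, b2⟩ := abs_le.1 h4
    obtain ⟨c1, c2⟩ := abs_le.1 h5
    set A := ∑ x, e x * e (x + s)
    set B := ∑ x, e x * t (x + s)
    set C := ∑ x, t x * e (x + s)
    set S := ∑ x, t x * t (x + s)
    have hB1 : (n : ℤ) * B ≤ n * M := mul_le_mul_of_nonneg_left b2 hn0.le
    have hB2 : -((n : ℤ) * M) ≤ n * B := by nlinarith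
    have hC1 : (n : ℤ) * C ≤ n * M := mul_le_mul_of_nonneg_left c2 hn0.le
    have hC2 : -((n : ℤ) * M) ≤ n * C := by nlinarith
    have hn2 : (0 : ℤ) < 4 * (n : ℤ) ^ 2 := by positivity
    have hap : (0 : ℤ) ≤ (a : ℤ) * n := by positivity
    have hlt : 4 * (n : ℤ) ^ 2 * S < 4 * (n : ℤ) ^ 2 * 1 := by linarith
    have hgt : 4 * (n : ℤ) ^ 2 * (-1) < 4 * (n : ℤ) ^ 2 * S := by linarith
    have hS1 : S < 1 := lt_of_mul_lt_mul_left hlt hn2.le
    have hS2 : -1 < S := lt_of_mul_lt_mul_left hgt hn2.le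
    omega
  refine ⟨hzero, ?_⟩
  have h1 : (∑ x, t x) ^ 2 = ∑ s, ∑ x, t x * t (x + s) := by
    rw [sq, Finset.sum_mul_sum, Finset.sum_comm (f := fun s x => t x * t (x + s))]
    refine Finset.sum_congr rfl fun x _ => ?_
    exact (Equiv.sum_comp (Equiv.addLeft x) fun y => t x * t y).symm
  rw [h1, Finset.sum_eq_single 0 (fun s _ hs => hzero s hs)
    (fun h => absurd (Finset.mem_univ _) h)]
  refine Finset.sum_congr rfl fun x _ => ?_
  rw [add_zero, sq]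

theorem Row.sum_le {a n : ℕ} {e t : ZMod u → ℤ} (hR : Row u a n e t) :
    2 * (n : ℤ) * |∑ x, t x| ≤ u + 1 := by
  have h1 : |∑ x, (e x + 2 * n * t x)| = 1 := by
    have h := hR.sum_sq
    rw [← sq_abs] at h
    exact (pow_eq_one_iff_of_nonneg (abs_nonneg _) two_ne_zero).1 h
  have h2 : ∑ x, (e x + 2 * n * t x) = ∑ x, e x + 2 * n * ∑ x, t x := by
    rw [Finset.sum_add_distrib, Finset.mul_sum]
  have h3 : |∑ x, e x| ≤ u := by
    refine (Finset.abs_sum_le_sum_abs _ _).trans (le_of_eq ?_)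
    simp only [rigid_abs hR, rigid_card]
  have h4 : 2 * (n : ℤ) * |∑ x, t x| = |2 * n * ∑ x, t x| := by
    rw [abs_mul, abs_of_nonneg (by positivity : (0 : ℤ) ≤ 2 * (n : ℤ))]
  rw [h4, show 2 * (n : ℤ) * ∑ x, t x = (∑ x, (e x + 2 * n * t x)) - ∑ x, e x by rw [h2]; ring]
  refine (abs_sub _ _).trans ?_
  rw [h1]
  linarith

/-- the case `a = 4` -/
theorem Row.four {n : ℕ} {e t : ZMod u → ℤ} (hR : Row u 4 n e t) (hn : 7 ≤ n) (hu : 1 < u)
    (hu' : u + 2 < 4 * n + 1) (huo : Odd u) : False := by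
  -- `M ≤ 4` from `norm_eq` and `J_le` (`4 (n-1) M ≤ 4 (u-1) ≤ 4 (4n-4)`), so `rigid` applies
  -- (`(4n+1) + (4n-3) + 16 n < 4 n^2`), `T^2 = M` is `1` or `4`. `M = 1`: `2 n ≤ u + 1` and
  -- `u - 1 = n + J ≤ n + 1`. `M = 4`: `4 n ≤ u + 1`. Both are impossible.
  have h1 := hR.norm_eq (by omega)
  have h2 := hR.J_le
  have h3 := hR.M_pos (by omega) (by norm_num) hu
  have h4 := hR.sum_le
  set M : ℤ := ∑ x, t x ^ 2 with hM
  set J : ℤ := ∑ x, e x * t x with hJ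
  set T : ℤ := ∑ x, t x with hT
  obtain ⟨j1, j2⟩ := abs_le.1 h2
  have hn' : (7 : ℤ) ≤ n := by exact_mod_cast hn
  obtain ⟨w, hw⟩ := huo
  have hu4 : (u : ℤ) ≤ 4 * n - 3 := by
    have : u ≤ 4 * n - 3 := by omega
    have h7 : 3 ≤ 4 * n := by omega
    zify [h7] at this
    exact this
  have hnorm : (u : ℤ) - 1 = n * M + J := by
    push_cast at h1
    linarith
  have hM4 : M ≤ 4 := by
    by_contra hcon
    push Not at hcon
    have : (5 : ℤ) ≤ M := by omega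
    nlinarith
  have hsize : ((4 * n + 1 : ℕ) : ℤ) + u + 4 * n * M < 4 * (n : ℤ) ^ 2 := by
    push_cast
    have : (n : ℤ) * M ≤ n * 4 := mul_le_mul_of_nonneg_left hM4 (by positivity)
    nlinarith
  have hT2 := (hR.rigid (by omega) hsize).2
  rw [← hM, ← hT] at hT2
  have hTa : |T| ^ 2 = M := by rw [sq_abs]; exact hT2
  have hTn := abs_nonneg T
  have hT3 : |T| ≤ 2 := by nlinarith
  have hcase : |T| = 0 ∨ |T| = 1 ∨ |T| = 2 := by omega
  rcases hcase with h | h | h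
  · rw [h] at hTa
    omega
  · rw [h] at hTa h4
    have hM1 : M = 1 := by omega
    rw [hM1] at hnorm j2
    linarith
  · rw [h] at h4
    linarith

end Pool.Agent.H12.GS
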