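import Pool.Agent.H12.GS.Mann
import Pool.Agent.H12.HD.Safe
import Pool.Agent.H12.GS.Rigid

/-!
# No prime factor of `w` has order dividing `2` or `4`, and the totient

MODULE Roots (about 170 lines), imports Mann (its statements may be used).

Notation: `p ∣ w` prime, `4 w = u q + 1`. Put `c = 4 w / p`, `p c = u q + 1`, `c ≥ 4`
(`cofac` in H12/HD/Safe). Modulo `q`: `p c = 1`.
* `root_two` (`u < 2 q + 3`, `q ≥ 7`): if `p^2 = 1` modulo `q` then `p = 1` or `p = -1` modulo `q`.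
  (i) `p = 1`: `p ≥ 2` is odd or `2`; `q ∣ p - 1` and `p - 1` is even (`p ≠ 2` as `q > 1`), so
  `p ≥ 2 q + 1`; `c = 1` modulo `q`, `c ≥ 4`, so `c ≥ q + 1`; `p c ≥ (2q+1)(q+1) = (2q+3) q + 1`,
  against `p c = u q + 1`. (ii) `p = -1`: `p` is odd (`2 = -1` modulo `q` only if `q = 3`), so
  `p ≥ 2 q - 1`. By `mann` with `j = 1` the valuation of `p` in `w` is even, it is not `0`, so
  `p^2 ∣ w`, `p^2 * 4 ≤ u q + 1`: impossible as `4 (2q-1)^2 > (2q+3) q + 1`.
* `root_four` (`u + 2 < q`, `q ≥ 7`): if `p^4 = 1` modulo `q` then `p = 1`, `p = -1`, or `p^2 = -1`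
  (`(p^2-1)(p^2+1) = 0`). `p = 1`: `p c ≥ (q+1)(q+1)`. `p = -1`: `p, c ≥ q - 1`,
  `p ≥ 2 q - 1` as above, `p c ≥ (2q-1)(q-1) > u q + 1`. `p^2 = -1`: `mann` with `j = 2`: the
  valuation is even, so `p^2 ∣ w`; `c' = 4 w / p^2`, `p^2 c' = u q + 1`, `p^2 = -1` modulo `q` so
  `p^2 ≥ q - 1` and `c' = -1` modulo `q`, `c' ≥ q - 1`; `(q-1)^2 = (q-2) q + 1 > u q + 1`.
* `tot_two`: `q = 2 n + 1`, `n ≥ 5` prime, `q` prime, `u < 4 n + 5`, `u ≡ 1` modulo `4`. If
  `n ∣ φ(u)` then `n ^ 2 ∣ u` or a prime `p' = k n + 1` divides `u` (`Nat.totient_eq_prod_factorization`,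
  see `dvd_totient` in H12/HD/U1). `n^2 ≤ u < 4 n + 5` only if `n = 5`, `u = 25` is not `< 25`. `p'` is
  odd and `n` is odd so `k` is even; `k = 2`: `p' = q`, `u = q` (or `u ≥ 3 q > 4 n + 5`,
  `u = 2 q` is even), but `q ≡ 3` modulo `4` since `n` is odd; `k = 4`: `p' = 4 n + 1`, and one of `n`,
  `2 n + 1`, `4 n + 1` is divisible by `3`, so `n = 3`; `k ≥ 6`: `6 n + 1 > u`.
* `tot_four`: `q = 4 n + 1`, `n ≥ 5` prime, `u < 4 n - 1` odd: `n^2 ∣ u` is impossible; `p' = k n + 1`,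
  `k` even, `k = 2`: `2 n + 1`, `4 n + 1`, `n` primes: `3` divides one, `n = 3`; `k ≥ 4`: `> u`.
-/

set_option autoImplicit false

namespace Pool.Agent.H12.GS

open Pool.Agent.H12.HD

/-- the cofactor `c` of a prime `p ∣ w`, `c ≥ 4` -/
private theorem rt_cofac {u q p w : ℕ} (hpw : p ∣ w) (hw : 0 < w) (hv : u * q + 1 = 4 * w) :
    ∃ c : ℕ, p * c = u * q + 1 ∧ 4 ≤ c := by
  obtain ⟨k, hk⟩ := hpw
  have hk0 : 0 < k := by
    rcases Nat.eq_zero_or_pos k with h | h
    · rw [h, mul_zero] at hk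
      omega
    · exact h
  refine ⟨4 * k, ?_, by omega⟩
  rw [hv, hk]
  ring

private theorem rt_one {q x : ℕ} (hx : 2 ≤ x) (h : (x : ZMod q) = 1) : q ∣ x - 1 := by
  have h2 : ((x - 1 : ℕ) : ZMod q) = 0 := by
    rw [Nat.cast_sub (by omega), h]
    simp
  rwa [ZMod.natCast_eq_zero_iff] at h2

private theorem rt_neg {q x : ℕ} (h : (x : ZMod q) = -1) : q ∣ x + 1 := by
  have h2 : ((x + 1 : ℕ) : ZMod q) = 0 := by
    push_cast
    rw [h]
    ring
  rwa [ZMod.natCast_eq_zero_iff] at h2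

private theorem rt_sq {w p : ℕ} (hw : 0 < w) (hp : p.Prime) (hpw : p ∣ w)
    (h : Even (padicValNat p w)) : p ^ 2 ∣ w := by
  have : Fact p.Prime := ⟨hp⟩
  have h1 : 1 ≤ padicValNat p w := one_le_padicValNat_of_dvd hw.ne' hpw
  obtain ⟨k, hk⟩ := h
  exact (padicValNat_dvd_iff_le hw.ne').2 (by omega)

theorem root_two {u q w p : ℕ} (hq : q.Prime) (hq7 : 7 ≤ q) (hu : 0 < u) (hub : u < 2 * q + 3)
    (hv : u * q + 1 = 4 * w) (D : Finset (ZMod (u * q))) (hD : IsHDS w D) (hp : p.Prime)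
    (hpw : p ∣ w) : (p : ZMod q) ^ 2 ≠ 1 := by
  have : Fact q.Prime := ⟨hq⟩
  intro h
  have hw : 0 < w := by omega
  obtain ⟨c, hc, hc4⟩ := rt_cofac hpw hw hv
  have hp2 := hp.two_le
  have hcc : (p : ZMod q) * (c : ZMod q) = 1 := by
    have := congrArg (fun z : ℕ => (z : ZMod q)) hc
    push_cast at this
    rw [this, ZMod.natCast_self]
    ring
  have hfac : ((p : ZMod q) - 1) * ((p : ZMod q) + 1) = 0 := by linear_combination h
  have hqo : q % 2 = 1 := by
    rcases hq.eq_two_or_odd with h1 | h1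
    · omega
    · exact h1
  rcases mul_eq_zero.1 hfac with h1 | h1
  · have hp1 : (p : ZMod q) = 1 := by linear_combination h1
    have hc1 : (c : ZMod q) = 1 := by rw [hp1, one_mul] at hcc; exact hcc
    obtain ⟨j, hj⟩ := rt_one hp2 hp1
    obtain ⟨k, hk⟩ := rt_one (by omega) hc1
    have hk0 : 1 ≤ k := by
      rcases Nat.eq_zero_or_pos k with h2 | h2
      · rw [h2, mul_zero] at hk
        omega
      · exact h2
    have hj0 : 1 ≤ j := by
      rcases Nat.eq_zero_or_pos j with h2 | h2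
      · rw [h2, mul_zero] at hj
        omega
      · exact h2
    have hpo : p % 2 = 1 := by
      rcases hp.eq_two_or_odd with h2 | h2
      · rw [h2] at hj
        have h3 : q * 1 ≤ q * j := Nat.mul_le_mul_left q hj0
        omega
      · exact h2
    have hj2 : 2 ≤ j := by
      by_contra hlt
      have h2 : j = 1 := by omega
      rw [h2, mul_one] at hj
      omega
    have h3 : q * 2 ≤ q * j := Nat.mul_le_mul_left q hj2
    have h4 : q * 1 ≤ q * k := Nat.mul_le_mul_left q hk0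
    have h5 : (2 * q + 1) * (q + 1) ≤ p * c := Nat.mul_le_mul (by omega) (by omega)
    rw [hc] at h5
    have h6 : u * q ≤ (2 * q + 2) * q := Nat.mul_le_mul_right q (by omega)
    nlinarith
  · have hp1 : (p : ZMod q) = -1 := by linear_combination h1
    obtain ⟨j, hj⟩ := rt_neg hp1
    have hj0 : 1 ≤ j := by
      rcases Nat.eq_zero_or_pos j with h2 | h2
      · rw [h2, mul_zero] at hj
        omega
      · exact h2
    have hpo : p % 2 = 1 := by
      rcases hp.eq_two_or_odd with h2 | h2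
      · rw [h2] at hj
        have h3 : q * 1 ≤ q * j := Nat.mul_le_mul_left q hj0
        omega
      · exact h2
    have hj2 : 2 ≤ j := by
      by_contra hlt
      have h2 : j = 1 := by omega
      rw [h2, mul_one] at hj
      omega
    have h3 : q * 2 ≤ q * j := Nat.mul_le_mul_left q hj2
    have hev : Even (padicValNat p w) :=
      mann (j := 1) hq hu hv D hD hp hpw (by rw [pow_one]; exact hp1)
    obtain ⟨k, hk⟩ := rt_sq hw hp hpw hev
    have hk0 : 1 ≤ k := by
      rcases Nat.eq_zero_or_pos k with h2 | h2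
      · rw [h2, mul_zero] at hk
        omega
      · exact h2
    have h4 : (2 * q - 1) ^ 2 ≤ p ^ 2 := Nat.pow_le_pow_left (by omega) 2
    have h5 : p ^ 2 * 1 ≤ p ^ 2 * k := Nat.mul_le_mul_left _ hk0
    have h6 : u * q ≤ (2 * q + 2) * q := Nat.mul_le_mul_right q (by omega)
    obtain ⟨y, rfl⟩ : ∃ y, q = y + 1 := ⟨q - 1, by omega⟩
    have h7 : 2 * (y + 1) - 1 = 2 * y + 1 := by omega
    rw [h7] at h4
    nlinarith

theorem root_four {u q w p : ℕ} (hq : q.Prime) (hq7 : 7 ≤ q) (hu : 0 < u) (hub : u + 2 < q)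
    (hv : u * q + 1 = 4 * w) (D : Finset (ZMod (u * q))) (hD : IsHDS w D) (hp : p.Prime)
    (hpw : p ∣ w) : (p : ZMod q) ^ 4 ≠ 1 := by
  have : Fact q.Prime := ⟨hq⟩
  intro h
  have hw : 0 < w := by omega
  have hfac : ((p : ZMod q) ^ 2 - 1) * ((p : ZMod q) ^ 2 + 1) = 0 := by linear_combination h
  rcases mul_eq_zero.1 hfac with h1 | h1
  · exact sq_ne_one hq hub hp hpw hv (by linear_combination h1)
  · have hp1 : (p : ZMod q) ^ 2 = -1 := by linear_combination h1
    have hev : Even (padicValNat p w) := mann (j := 2) hq hu hv D hD hp hpw hp1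
    obtain ⟨k, hk⟩ := rt_sq hw hp hpw hev
    have hc : p ^ 2 * (4 * k) = u * q + 1 := by
      rw [hv, hk]
      ring
    have hcc : ((p ^ 2 : ℕ) : ZMod q) * ((4 * k : ℕ) : ZMod q) = 1 := by
      have h5 : ((p ^ 2 * (4 * k) : ℕ) : ZMod q) = ((u * q + 1 : ℕ) : ZMod q) := by rw [hc]
      push_cast at h5 ⊢
      rw [h5, ZMod.natCast_self]
      ring
    have hp3 : ((p ^ 2 : ℕ) : ZMod q) = -1 := by
      rw [Nat.cast_pow]
      exact hp1
    have hk3 : ((4 * k : ℕ) : ZMod q) = -1 := by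
      rw [hp3] at hcc
      linear_combination -hcc
    have h2 := Nat.le_of_dvd (by omega) (rt_neg hp3)
    have h3 := Nat.le_of_dvd (by omega) (rt_neg hk3)
    have h4 : (q - 1) * (q - 1) ≤ p ^ 2 * (4 * k) := Nat.mul_le_mul (by omega) (by omega)
    rw [hc] at h4
    obtain ⟨y, rfl⟩ : ∃ y, q = y + 3 := ⟨q - 3, by omega⟩
    have h5 : y + 3 - 1 = y + 2 := by omega
    rw [h5] at h4
    have h6 : u * (y + 3) ≤ y * (y + 3) := Nat.mul_le_mul_right _ (by omega)
    nlinarith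

private theorem rt_tot {n u : ℕ} (hn : n.Prime) (hu : u ≠ 0) (h : n ∣ Nat.totient u) :
    n ^ 2 ∣ u ∨ ∃ p k : ℕ, p.Prime ∧ p ∣ u ∧ 0 < k ∧ p = n * k + 1 := by
  rw [Nat.totient_eq_prod_factorization hu, Finsupp.prod] at h
  obtain ⟨p, hp, hd⟩ := (Prime.dvd_finsetProd_iff hn.prime _).1 h
  have hpp : p.Prime := Nat.prime_of_mem_primeFactors (by rwa [Nat.support_factorization] at hp)
  have hpu : p ∣ u := Nat.dvd_of_mem_primeFactors (by rwa [Nat.support_factorization] at hp)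
  rcases (Nat.Prime.dvd_mul hn).1 hd with h1 | h1
  · left
    have h2 : n = p := (Nat.prime_dvd_prime_iff_eq hn hpp).1 (hn.dvd_of_dvd_pow h1)
    have he : u.factorization p - 1 ≠ 0 := by
      intro h0
      rw [h0, pow_zero] at h1
      exact hn.one_lt.ne' (Nat.dvd_one.1 h1)
    rw [h2]
    exact (hpp.pow_dvd_iff_le_factorization hu).2 (by omega)
  · right
    obtain ⟨k, hk⟩ := h1
    have := hpp.two_le
    refine ⟨p, k, hpp, hpu, ?_, by omega⟩
    rcases Nat.eq_zero_or_pos k with h | h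
    · rw [h, mul_zero] at hk
      omega
    · exact h

/-- `n`, `2 n + 1`, `4 n + 1` are not all primes if `n ≥ 5` -/
private theorem rt_three {n : ℕ} (hn : n.Prime) (hn5 : 5 ≤ n) (h2 : (2 * n + 1).Prime)
    (h4 : (4 * n + 1).Prime) : False := by
  have h : n % 3 = 0 ∨ n % 3 = 1 ∨ n % 3 = 2 := by omega
  rcases h with h | h | h
  · have := (Nat.prime_dvd_prime_iff_eq Nat.prime_three hn).1 (Nat.dvd_of_mod_eq_zero h)
    omega
  · have := (Nat.prime_dvd_prime_iff_eq Nat.prime_three h2).1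
      (Nat.dvd_of_mod_eq_zero (by omega))
    omega
  · have := (Nat.prime_dvd_prime_iff_eq Nat.prime_three h4).1
      (Nat.dvd_of_mod_eq_zero (by omega))
    omega

private theorem rt_even {n k u p : ℕ} (hn : n.Prime) (hn5 : 5 ≤ n) (hu : u % 2 = 1)
    (hpu : p ∣ u) (hp : p = n * k + 1) : ∃ j, k = 2 * j := by
  have hno : n % 2 = 1 := by
    rcases hn.eq_two_or_odd with h1 | h1
    · omega
    · exact h1
  have hpo : p % 2 = 1 := by
    obtain ⟨m, hm⟩ := hpu
    rcases Nat.mod_two_eq_zero_or_one p with h | h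
    · rw [hm, Nat.mul_mod, h] at hu
      simp at hu
    · exact h
  rcases Nat.mod_two_eq_zero_or_one k with h | h
  · exact ⟨k / 2, by omega⟩
  · exfalso
    have h1 : (n * k) % 2 = 1 := by rw [Nat.mul_mod, hno, h]
    omega

theorem tot_two {u n : ℕ} (hn : n.Prime) (hn5 : 5 ≤ n) (hq : (2 * n + 1).Prime)
    (hub : u < 4 * n + 5) (hu4 : u % 4 = 1) : ¬ n ∣ Nat.totient u := by
  intro h
  have hu0 : u ≠ 0 := by omega
  rcases rt_tot hn hu0 h with h1 | ⟨p, k, hp, hpu, hk, hpk⟩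
  · have h2 := Nat.le_of_dvd (by omega) h1
    nlinarith
  · obtain ⟨j, rfl⟩ := rt_even hn hn5 (by omega) hpu hpk
    have hpk' : p = 2 * (n * j) + 1 := by rw [hpk]; ring
    have h2 := Nat.le_of_dvd (by omega) hpu
    have hj : j = 1 ∨ j = 2 ∨ 3 ≤ j := by omega
    rcases hj with rfl | rfl | hj
    · obtain ⟨m, hm⟩ := hpu
      rw [hpk'] at hm
      have hno : n % 2 = 1 := by
        rcases hn.eq_two_or_odd with h1 | h1
        · omega
        · exact h1
      have hm3 : m < 3 := by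
        by_contra hlt
        have h3 : (2 * (n * 1) + 1) * 3 ≤ (2 * (n * 1) + 1) * m :=
          Nat.mul_le_mul_left _ (by omega)
        omega
      have hm' : m = 0 ∨ m = 1 ∨ m = 2 := by omega
      rcases hm' with rfl | rfl | rfl <;> omega
    · exact rt_three hn hn5 hq (by
        have : 4 * n + 1 = p := by omega
        rw [this]
        exact hp)
    · have h3 : n * 3 ≤ n * j := Nat.mul_le_mul_left n hj
      omega

theorem tot_four {u n : ℕ} (hn : n.Prime) (hn5 : 5 ≤ n) (hq : (4 * n + 1).Prime)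
    (hu : Odd u) (hub : u + 2 < 4 * n + 1) : ¬ n ∣ Nat.totient u := by
  intro h
  have hu2 : u % 2 = 1 := Nat.odd_iff.1 hu
  have hu0 : u ≠ 0 := by omega
  rcases rt_tot hn hu0 h with h1 | ⟨p, k, hp, hpu, hk, hpk⟩
  · have h2 := Nat.le_of_dvd (by omega) h1
    nlinarith
  · obtain ⟨j, rfl⟩ := rt_even hn hn5 hu2 hpu hpk
    have hpk' : p = 2 * (n * j) + 1 := by rw [hpk]; ring
    have h2 := Nat.le_of_dvd (by omega) hpu
    have hj : j = 1 ∨ 2 ≤ j := by omega
    rcases hj with rfl | hj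
    · exact rt_three hn hn5 (by
        have : 2 * n + 1 = p := by omega
        rw [this]
        exact hp) hq
    · have h3 : n * 2 ≤ n * j := Nat.mul_le_mul_left n hj
      omega

end Pool.Agent.H12.GS
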