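import Pool.Agent.H12.GS.Mann

/-!
# The small primes `q = 5, 7, 13`

MODULE Small (about 100 lines), imports Mann (its statements may be used).

Use `mann` with an explicit `p`, prime factor `q'` of the order, `j` (the order `v = u q`
can be written as `u' q'` for every prime factor `q'`; a difference set for `v` is one for `u' q'`
after rewriting the equality `v = u' q'`, e.g. state an auxiliary lemma for
`∃ D : Finset (ZMod v), IsHDS w D`).
* `q = 5`, `u < 13`, `5 u + 1 = 4 w`: `u = 3, 7, 11`. `u = 3`: `15 = 3 * 5`; `u = 7`: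
  `35 = 5 * 7`; `u = 11`: `w = 14`, `2` divides `14` exactly once and `2 ^ 2 = -1` modulo `5`.
* `q = 7`, `u < 17`, `7 u + 1 = 4 w`: `u = 1, 5, 9, 13`: `u = 5` is fine, `u = 9`: `w = 16 = 2 ^ 4`,
  `u = 13`: `w = 23`, modulo `13`: `23 ^ 3 = -1`.
* `q = 13`, `u < 11`, `13 u + 1 = 4 w`, `u > 1`: `u = 3, 7`: `w = 10`: `2` exactly once, modulo `13`
  `2 ^ 6 = -1`; `w = 23`, modulo `13`: `23 ^ 3 = -1`.
-/

set_option autoImplicit false

namespace Pool.Agent.H12.GS

open Pool.Agent.H12.HD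

/-- the conclusion of Q1 -/
def Good (w : ℕ) : Prop :=
  (4 * w - 1).Prime ∨ (∃ p : ℕ, p.Prime ∧ (p + 2).Prime ∧ 4 * w - 1 = p * (p + 2)) ∨
    ∃ m : ℕ, w = 2 ^ m

private lemma val_two_mul {m : ℕ} (hm : ¬ 2 ∣ m) : padicValNat 2 (2 * m) = 1 := by
  have h0 : m ≠ 0 := by
    rintro rfl
    exact hm (dvd_zero 2)
  rw [padicValNat.mul (by norm_num) h0, padicValNat.self (by norm_num),
    padicValNat.eq_zero_of_not_dvd hm]

private lemma val_14 : padicValNat 2 14 = 1 := val_two_mul (m := 7) (by norm_num)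

private lemma val_10 : padicValNat 2 10 = 1 := val_two_mul (m := 5) (by norm_num)

private lemma val_23 : padicValNat 23 23 = 1 := padicValNat.self (by norm_num)

private lemma hds_cast {a b w : ℕ} (h : a = b) (H : ∃ D : Finset (ZMod a), IsHDS w D) :
    ∃ D : Finset (ZMod b), IsHDS w D := by
  subst h
  exact H

private lemma no_91 (H : ∃ D : Finset (ZMod (7 * 13)), IsHDS 23 D) : False := by
  obtain ⟨D, hD⟩ := H
  have h := mann (u := 7) (q := 13) (w := 23) (p := 23) (j := 3) (by norm_num) (by norm_num)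
    (by norm_num) D hD (by norm_num) (dvd_refl 23) (by decide)
  rw [val_23] at h
  exact absurd h (by decide)

theorem small_five {u w : ℕ} (hu : 0 < u) (hub : u < 13) (hv : u * 5 + 1 = 4 * w)
    (D : Finset (ZMod (u * 5))) (hD : IsHDS w D) : Good w := by
  have hcase : (u = 3 ∧ w = 4) ∨ (u = 7 ∧ w = 9) ∨ (u = 11 ∧ w = 14) := by omega
  rcases hcase with ⟨h1, h2⟩ | ⟨h1, h2⟩ | ⟨h1, h2⟩
  · subst h2
    exact Or.inr (Or.inr ⟨2, by norm_num⟩)
  · subst h2
    exact Or.inr (Or.inl ⟨5, by norm_num, by norm_num, by norm_num⟩)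
  · subst h1
    subst h2
    exfalso
    have h := mann (u := 11) (q := 5) (w := 14) (p := 2) (j := 2) (by norm_num) (by norm_num)
      (by norm_num) D hD (by norm_num) (by norm_num) (by decide)
    rw [val_14] at h
    exact absurd h (by decide)

theorem small_seven {u w : ℕ} (hu : 0 < u) (hub : u < 17) (hv : u * 7 + 1 = 4 * w)
    (D : Finset (ZMod (u * 7))) (hD : IsHDS w D) : Good w := by
  have hcase : (u = 1 ∧ w = 2) ∨ (u = 5 ∧ w = 9) ∨ (u = 9 ∧ w = 16) ∨ (u = 13 ∧ w = 23) := by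
    omega
  rcases hcase with ⟨h1, h2⟩ | ⟨h1, h2⟩ | ⟨h1, h2⟩ | ⟨h1, h2⟩
  · subst h2
    exact Or.inr (Or.inr ⟨1, by norm_num⟩)
  · subst h2
    exact Or.inr (Or.inl ⟨5, by norm_num, by norm_num, by norm_num⟩)
  · subst h2
    exact Or.inr (Or.inr ⟨4, by norm_num⟩)
  · subst h1
    subst h2
    exact (no_91 (hds_cast (by norm_num) ⟨D, hD⟩)).elim

theorem small_thirteen {u w : ℕ} (hu : 1 < u) (hub : u < 11) (hv : u * 13 + 1 = 4 * w)
    (D : Finset (ZMod (u * 13))) (hD : IsHDS w D) : False := by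
  have hcase : (u = 3 ∧ w = 10) ∨ (u = 7 ∧ w = 23) := by omega
  rcases hcase with ⟨h1, h2⟩ | ⟨h1, h2⟩
  · subst h1
    subst h2
    have h := mann (u := 3) (q := 13) (w := 10) (p := 2) (j := 6) (by norm_num) (by norm_num)
      (by norm_num) D hD (by norm_num) (by norm_num) (by decide)
    rw [val_10] at h
    exact absurd h (by decide)
  · subst h1
    subst h2
    exact no_91 ⟨D, hD⟩

end Pool.Agent.H12.GS
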