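import Pool.Agent.H12.GS.Conf4
import Pool.Agent.H12.GS.Rigid

/-!
# The case of safe primes

MODULE Tone (about 180 lines), imports Conf4, Rigid (statements may be used).

`q = 2 n + 1`, `Row u 2 n e t`, `t^2 + h^2 = 1`, `u < 4 n + 5`, `n ≥ 5`.
* `M = ∑ t^2 ≤ 2`: `norm_eq`, `J_le`: `2 (u - 1) = 4 (n M + J) ≥ 4 (n-1) M`. `rigid` applies
  (`2n+1 + u + 8 n < 4 n^2`), so `T^2 = M`, `M = 1` (`1 ≤ M ≤ 2`, `2` is not a square). So there is
  `r` with `t r = τ`, `τ = 1` or `-1`, and `t x = 0` for `x ≠ r`; `h r = 0`, `h x = 1` or `-1` for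
  `x ≠ r`. `J = τ e(r)` is `1` or `-1` and `u = 2 n + 1 + 2 J`.
* For `s ≠ 0`, `Row.ac` gives `E(s) + 2 n τ (e (r+s) + e (r-s)) = -(2 n + 1)`,
  `E(s) = ∑ e x e (x+s)`, and the last hypothesis gives `E(s) + 2 n ∑ h x h (x+s) = -1`
  (`∑ t x t (x+s) = 0`).
* Claim: `e (r + s) = -τ` for all `s ≠ 0`. If `J = -1`, `u = 2 n - 1`: `E(s) ≥ -u` forces
  `τ (e (r+s) + e (r-s)) < 0`, so both are `-τ`. If `J = 1`, `u = 2 n + 3`: let `B` be the number of
  `s ≠ 0` with `e (r+s) = τ`; `(∑ e + 2 n τ)^2 = 1` and `τ ∑ e = 1 - (u-1) + 2 B` give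
  `(2 B - 1)^2 = 1`, so `B = 0` or `B = 1`. If `B = 1`, `e (r + s₁) = τ`: `e (r - s₁) = -τ`
  (`-s₁ ≠ s₁`, `-s₁ ≠ 0`, `u` is odd), so `E(s₁) = -(2 n + 1)`; but `e = -τ` except at two points, so
  `E(s₁) ≥ u - 8`: contradiction.
* So `∑ h x h (x+s) = -1` for `s ≠ 0`, `x ↦ h (r + x)` satisfies `Conf`, and `Conf.prime` applies.
-/

set_option autoImplicit false

namespace Pool.Agent.H12.GS

open Finset

private theorem Tone_shift {u : ℕ} [NeZero u] (g : ZMod u → ℤ) (r : ZMod u) :
    ∑ x, g (r + x) = ∑ x, g x :=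
  Equiv.sum_comp (Equiv.addLeft r) g

private theorem Tone_single {u : ℕ} [NeZero u] {t g : ZMod u → ℤ} {r : ZMod u}
    (h0 : ∀ x, x ≠ r → t x = 0) : ∑ x, t x * g x = t r * g r := by
  refine Finset.sum_eq_single r (fun x _ hx => by rw [h0 x hx, zero_mul]) fun h => ?_
  exact absurd (Finset.mem_univ r) h

theorem tone {u n : ℕ} [NeZero u] (hn : 5 ≤ n) (hu : 1 < u) (hu4 : u % 4 = 1)
    (hub : u < 4 * n + 5) {e t h : ZMod u → ℤ} (hR : Row u 2 n e t)
    (hth : ∀ x, t x ^ 2 + h x ^ 2 = 1)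
    (hac : ∀ s, s ≠ 0 → ∑ x, e x * e (x + s) +
        2 * n * ∑ x, (t x * t (x + s) + h x * h (x + s)) = -1) :
    u.Prime ∧ (u + 2 = 2 * n + 1 ∨ u = 2 * n + 1 + 2) := by
  have hn' : (5 : ℤ) ≤ n := by exact_mod_cast hn
  have hub' : (u : ℤ) ≤ 4 * n + 4 := by
    have : u ≤ 4 * n + 4 := by omega
    exact_mod_cast this
  have hN := hR.norm_eq (by omega)
  have hJ := hR.J_le
  have hM1 := hR.M_pos (by omega) (by norm_num) hu
  obtain ⟨M, hM⟩ : ∃ M, M = ∑ x, t x ^ 2 := ⟨_, rfl⟩
  obtain ⟨J, hJd⟩ : ∃ J, J = ∑ x, e x * t x := ⟨_, rfl⟩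
  rw [← hM, ← hJd] at hN
  rw [← hM, ← hJd] at hJ
  rw [← hM] at hM1
  obtain ⟨hJ1, hJ2⟩ := abs_le.1 hJ
  have hM2 : M ≤ 2 := by
    push_cast at hN
    by_contra hc
    push Not at hc
    nlinarith
  obtain ⟨hrig, hT⟩ := hR.rigid (by omega) (by
    rw [← hM]
    push_cast
    nlinarith)
  rw [← hM] at hT
  have hMe : M = 1 := by
    have h2 : M ≠ 2 := by
      intro h2
      rw [h2] at hT
      have h3 : |∑ x, t x| < 2 := by
        by_contra hc
        push Not at hc
        have := mul_self_le_mul_self (by norm_num : (0 : ℤ) ≤ 2) hc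
        rw [← sq, ← sq, sq_abs, hT] at this
        norm_num at this
      obtain ⟨h4, h5⟩ := abs_lt.1 h3
      have h6 : (∑ x, t x) = -1 ∨ (∑ x, t x) = 0 ∨ (∑ x, t x) = 1 := by omega
      rcases h6 with h6 | h6 | h6 <;> rw [h6] at hT <;> norm_num at hT
    omega
  subst hMe
  -- the point `r`
  obtain ⟨r, hr⟩ : ∃ r, t r ≠ 0 := by
    by_contra hc
    push Not at hc
    have : ∑ x, t x ^ 2 = 0 := Finset.sum_eq_zero fun x _ => by rw [hc x]; norm_num
    omega
  have htr : t r ^ 2 = 1 := by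
    have h1 := hth r
    have h2 : 0 < t r ^ 2 := by positivity
    have h3 : 0 ≤ h r ^ 2 := sq_nonneg _
    omega
  have ht0 : ∀ x, x ≠ r → t x = 0 := by
    have h1 : t r ^ 2 + ∑ x ∈ Finset.univ.erase r, t x ^ 2 = ∑ x, t x ^ 2 :=
      Finset.add_sum_erase _ (fun x => t x ^ 2) (Finset.mem_univ r)
    have h2 : ∑ x ∈ Finset.univ.erase r, t x ^ 2 = 0 := by omega
    rw [Finset.sum_eq_zero_iff_of_nonneg fun x _ => sq_nonneg _] at h2
    intro x hx
    exact pow_eq_zero_iff (two_ne_zero) |>.1 (h2 x (Finset.mem_erase.2 ⟨hx, Finset.mem_univ _⟩))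
  obtain ⟨τ, hτ⟩ : ∃ τ, τ = t r := ⟨_, rfl⟩
  rw [← hτ] at htr
  have hhr : h r = 0 := by
    have h1 := hth r
    rw [← hτ, htr] at h1
    exact pow_eq_zero_iff (two_ne_zero) |>.1 (by omega)
  have hhx : ∀ x, x ≠ r → h x = 1 ∨ h x = -1 := by
    intro x hx
    have h1 := hth x
    rw [ht0 x hx] at h1
    have h2 : h x ^ 2 = 1 := by simpa using h1
    exact mul_self_eq_one_iff.1 (by rw [← sq]; exact h2)
  have hτ1 : τ * τ = 1 := by rw [← sq]; exact htr
  -- the letters `f = τ e`
  obtain ⟨f, hf⟩ : ∃ f : ZMod u → ℤ, f = fun x => τ * e x := ⟨_, rfl⟩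
  have hf1 : ∀ x, f x = 1 ∨ f x = -1 := by
    intro x
    rw [hf]
    rcases mul_self_eq_one_iff.1 hτ1 with h1 | h1 <;> rcases hR.e_val x with h2 | h2 <;>
      simp [h1, h2]
  have hfge : ∀ x, -1 ≤ f x := fun x => by rcases hf1 x with h1 | h1 <;> omega
  have hfle : ∀ x, f x ≤ 1 := fun x => by rcases hf1 x with h1 | h1 <;> omega
  have hef : ∀ x y, e x * e y = f x * f y := by
    intro x y
    rw [hf]
    have : τ * e x * (τ * e y) = τ * τ * (e x * e y) := by ring
    rw [this, hτ1, one_mul]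
  have hJf : J = f r := by
    rw [hJd, hf]
    have h1 : ∑ x, e x * t x = ∑ x, t x * e x :=
      Finset.sum_congr rfl fun x _ => mul_comm _ _
    rw [h1, Tone_single ht0, ← hτ]
  -- the autocorrelations of `e`
  have hE : ∀ s, s ≠ 0 → ∑ x, f x * f (x + s) + 2 * n * (f (r + s) + f (r - s)) =
      -(2 * n + 1) := by
    intro s hs
    have h1 := hR.ac s hs
    have h2 := hrig s hs
    have h3 : ∑ x, t x * e (x + s) = τ * e (r + s) := by
      rw [Tone_single (g := fun x => e (x + s)) ht0, ← hτ]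
    have h4 : ∑ x, e x * t (x + s) = τ * e (r - s) := by
      have h5 : ∑ x, e x * t (x + s) = ∑ x, t x * e (x - s) := by
        rw [← Equiv.sum_comp (Equiv.subRight s) fun x => e x * t (x + s)]
        refine Finset.sum_congr rfl fun x _ => ?_
        simp only [Equiv.subRight_apply, sub_add_cancel]
        ring
      rw [h5, Tone_single (g := fun x => e (x - s)) ht0, ← hτ]
    have h6 : ∑ x, (e x + 2 * n * t x) * (e (x + s) + 2 * n * t (x + s)) =
        ∑ x, e x * e (x + s) + 2 * n * (∑ x, t x * e (x + s) + ∑ x, e x * t (x + s)) +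
          4 * n ^ 2 * ∑ x, t x * t (x + s) := by
      rw [mul_add, Finset.mul_sum, Finset.mul_sum, Finset.mul_sum, ← Finset.sum_add_distrib,
        ← Finset.sum_add_distrib, ← Finset.sum_add_distrib]
      refine Finset.sum_congr rfl fun x _ => ?_
      ring
    rw [h6, h2, h3, h4] at h1
    have h7 : ∑ x, f x * f (x + s) = ∑ x, e x * e (x + s) :=
      Finset.sum_congr rfl fun x _ => (hef _ _).symm
    rw [h7, hf]
    push_cast at h1
    linarith
  -- lower bounds
  have hcard : ∑ _x : ZMod u, (1 : ℤ) = u := by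
    simp [ZMod.card]
  have hlow : ∀ s, -(u : ℤ) ≤ ∑ x, f x * f (x + s) := by
    intro s
    rw [← hcard, ← Finset.sum_neg_distrib]
    refine Finset.sum_le_sum fun x _ => ?_
    rcases hf1 x with h1 | h1 <;> rcases hf1 (x + s) with h2 | h2 <;> rw [h1, h2] <;> norm_num
  have hJu : (u : ℤ) = 2 * n + 1 + 2 * J := by
    push_cast at hN
    linarith
  -- the claim
  have hcl : ∀ s, s ≠ 0 → f (r + s) = -1 := by
    rcases hf1 r with hfr | hfr
    · -- `J = 1`
      have hJ1 : J = 1 := by rw [hJf, hfr]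
      rw [hJ1] at hJu
      have hS : (∑ x, f x + 2 * n) ^ 2 = 1 := by
        have h1 := hR.sum_sq
        have h2 : ∑ x, t x = τ := by
          have h3 := Tone_single (g := fun _ => (1 : ℤ)) ht0
          simp only [mul_one] at h3
          rw [h3, hτ]
        have h3 : ∑ x, (e x + 2 * n * t x) = ∑ x, e x + 2 * n * τ := by
          rw [Finset.sum_add_distrib, ← Finset.mul_sum, h2]
        rw [h3] at h1
        have h4 : ∑ x, f x = τ * ∑ x, e x := by
          rw [hf, Finset.mul_sum]
        rw [h4]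
        have h5 : (τ * ∑ x, e x + 2 * n) ^ 2 = (τ * τ) * (∑ x, e x + 2 * n * τ) ^ 2 := by
          have h6 : τ * ∑ x, e x + 2 * n = τ * (∑ x, e x + 2 * n * τ) := by
            rw [mul_add]
            have : τ * (2 * n * τ) = 2 * n * (τ * τ) := by ring
            rw [this, hτ1, mul_one]
          rw [h6]
          ring
        rw [h5, hτ1, h1, one_mul]
      have hsum : f r + 1 + ∑ x ∈ Finset.univ.erase r, (f x + 1) = ∑ x, f x + u := by
        rw [Finset.add_sum_erase _ (fun x => f x + 1) (Finset.mem_univ r),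
          Finset.sum_add_distrib, hcard]
      have hnn : ∀ x ∈ Finset.univ.erase r, 0 ≤ f x + 1 := fun x _ => by
        have := hfge x
        omega
      rcases mul_self_eq_one_iff.1 (by rw [← sq]; exact hS : (∑ x, f x + 2 * (n : ℤ)) *
        (∑ x, f x + 2 * (n : ℤ)) = 1) with h1 | h1
      · -- two points: impossible
        exfalso
        have h2 : ∑ x ∈ Finset.univ.erase r, (f x + 1) = 2 := by
          rw [hfr] at hsum
          linarith
        obtain ⟨r', hr', hne⟩ := Finset.exists_ne_zero_of_sum_ne_zero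
          (show ∑ x ∈ Finset.univ.erase r, (f x + 1) ≠ 0 by rw [h2]; norm_num)
        have hr'r : r' ≠ r := (Finset.mem_erase.1 hr').1
        have hfr' : f r' = 1 := by
          rcases hf1 r' with h3 | h3
          · exact h3
          · rw [h3] at hne
            exact absurd (by norm_num) hne
        have h3 := hE (r' - r) (sub_ne_zero.2 hr'r)
        rw [add_sub_cancel, hfr'] at h3
        have h4 := hfge (r - (r' - r))
        have h5 : -(2 * ∑ x, f x) - u ≤ ∑ x, f x * f (x + (r' - r)) := by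
          have h6 : ∑ x, f (x + (r' - r)) = ∑ x, f x := by
            have := Tone_shift f (r' - r)
            rw [← this]
            exact Finset.sum_congr rfl fun x _ => by rw [add_comm]
          have h7 : -(2 * ∑ x, f x) - u = ∑ x, (-f x - f (x + (r' - r)) - 1) := by
            rw [Finset.sum_sub_distrib, Finset.sum_sub_distrib, h6, hcard,
              Finset.sum_neg_distrib]
            ring
          rw [h7]
          refine Finset.sum_le_sum fun x _ => ?_
          have h8 := hfge x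
          have h9 := hfge (x + (r' - r))
          nlinarith
        nlinarith
      · have h2 : ∑ x ∈ Finset.univ.erase r, (f x + 1) = 0 := by
          rw [hfr] at hsum
          linarith
        rw [Finset.sum_eq_zero_iff_of_nonneg hnn] at h2
        intro s hs
        have h3 := h2 (r + s) (Finset.mem_erase.2 ⟨fun h => hs (by simpa using h),
          Finset.mem_univ _⟩)
        linarith
    · -- `J = -1`
      have hJ1 : J = -1 := by rw [hJf, hfr]
      rw [hJ1] at hJu
      intro s hs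
      have h1 := hE s hs
      have h2 := hlow s
      rcases hf1 (r + s) with h3 | h3
      · exfalso
        rw [h3] at h1
        have h4 := hfge (r - s)
        nlinarith
      · exact h3
  -- the conclusion
  have hconf : Conf u fun x => h (r + x) := by
    refine ⟨by simpa using hhr, fun x hx => hhx _ fun h => hx (by simpa using h), ?_⟩
    intro s hs
    have h1 := hE s hs
    have h2 := hac s hs
    have h3 := hrig s hs
    rw [Finset.sum_add_distrib, h3, zero_add] at h2
    have h4 : ∑ x, f x * f (x + s) = ∑ x, e x * e (x + s) :=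
      Finset.sum_congr rfl fun x _ => (hef _ _).symm
    have h5 := hcl s hs
    have h6 := hcl (-s) (neg_ne_zero.2 hs)
    rw [← sub_eq_add_neg] at h6
    rw [h5, h6, h4] at h1
    have h7 : ∑ x, h (r + x) * h (r + (x + s)) = ∑ x, h x * h (x + s) := by
      rw [← Tone_shift (fun x => h x * h (x + s)) r]
      exact Finset.sum_congr rfl fun x _ => by rw [add_assoc]
    rw [h7]
    have h8 : 2 * (n : ℤ) * ∑ x, h x * h (x + s) = 2 * n * (-1) := by linarith
    exact mul_left_cancel₀ (by positivity) h8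
  refine ⟨hconf.prime hu4 hu, ?_⟩
  rcases hf1 r with hfr | hfr
  · right
    rw [hJf, hfr] at hJu
    omega
  · left
    rw [hJf, hfr] at hJu
    omega

end Pool.Agent.H12.GS
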