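import Pool.Agent.H12.GS.Struct
import Pool.Agent.H12.GS.Tone
import Pool.Agent.H12.GS.Roots
import Pool.Agent.H12.GS.Small

/-!
# Golomb's conjecture for orders with a large prime factor `q`, `(q-1)/2` or `(q-1)/4` prime
-/

set_option autoImplicit false

namespace Pool.Agent.H12.GS

open Finset
open Pool.Agent.H12.HD

/-- the safe primes `q ≥ 11` -/
theorem main_two {u n w : ℕ} (hn : n.Prime) (hn5 : 5 ≤ n) (hq : (2 * n + 1).Prime) (hu : 1 < u)
    (hub : u < 2 * (2 * n + 1) + 3) (hv : u * (2 * n + 1) + 1 = 4 * w)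
    (D : Finset (ZMod (u * (2 * n + 1)))) (hD : IsHDS w D) : Good w := by
  have : Fact (2 * n + 1).Prime := ⟨hq⟩
  have : NeZero u := ⟨by omega⟩
  have hno : Odd n := hn.odd_of_ne_two (by omega)
  obtain ⟨k, hk⟩ := hno
  have hu4 : u % 4 = 1 := by
    have h1 : u * (2 * n + 1) = 4 * (u * k) + 3 * u := by rw [hk]; ring
    omega
  have hub' : u < 4 * n + 5 := by omega
  have hqu : ¬ (2 * n + 1) ∣ u := by
    rintro ⟨c, hc⟩
    have hc2 : c < 3 := by
      by_contra hcon
      push Not at hcon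
      have : (2 * n + 1) * 3 ≤ (2 * n + 1) * c := Nat.mul_le_mul le_rfl hcon
      omega
    interval_cases c <;> omega
  obtain ⟨G, hG, τ, hτ, hinv, t, ht⟩ := exists_G (q := 2 * n + 1) (a := 2) hn (by omega) rfl hu hqu
    (tot_two hn hn5 hq hub' hu4) hv
    (fun p hp hpw => root_two hq (by omega) (by omega) hub hv D hD hp hpw) D hD
  obtain ⟨h, hth, hac⟩ := two (by omega) ⟨k, hk⟩ rfl G hG τ hτ hinv t ht
  have hR := row (a := 2) rfl G hG t ht
  obtain ⟨hup, h1 | h1⟩ := tone hn5 hu hu4 hub' hR hth hac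
  · refine Or.inr (Or.inl ⟨u, hup, by rw [h1]; exact hq, ?_⟩)
    rw [h1]
    omega
  · refine Or.inr (Or.inl ⟨2 * n + 1, hq, by rw [← h1]; exact hup, ?_⟩)
    rw [← h1, mul_comm (2 * n + 1) u]
    omega

/-- the primes `q = 4 n + 1`, `n ≥ 7` prime -/
theorem main_four {u n w : ℕ} (hn : n.Prime) (hn7 : 7 ≤ n) (hq : (4 * n + 1).Prime) (hu : 1 < u)
    (hub : u + 2 < 4 * n + 1) (hv : u * (4 * n + 1) + 1 = 4 * w)
    (D : Finset (ZMod (u * (4 * n + 1)))) (hD : IsHDS w D) : False := by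
  have : Fact (4 * n + 1).Prime := ⟨hq⟩
  have : NeZero u := ⟨by omega⟩
  have huo : Odd u := by
    rw [← Nat.not_even_iff_odd]
    rintro ⟨c, hc⟩
    have h1 : u * (4 * n + 1) = 2 * (c * (4 * n + 1)) := by rw [hc]; ring
    omega
  have hqu : ¬ (4 * n + 1) ∣ u := fun h => by
    have := Nat.le_of_dvd (by omega) h
    omega
  obtain ⟨G, hG, τ, hτ, hinv, t, ht⟩ := exists_G (q := 4 * n + 1) (a := 4) hn (by omega) rfl hu hqu
    (tot_four hn (by omega) hq huo hub) hv
    (fun p hp hpw => root_four hq (by omega) (by omega) hub hv D hD hp hpw) D hD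
  exact (row (a := 4) rfl G hG t ht).four hn7 hu hub huo

/-- the prime factor `q` is large and `(q - 1) / 2` or `(q - 1) / 4` is prime -/
theorem main {w q : ℕ} (hw : 0 < w) (hq : q.Prime) (hqw : q ∣ 4 * w - 1)
    (h : (∃ n : ℕ, n.Prime ∧ q = 2 * n + 1 ∧ 4 * w - 1 < q * (2 * q + 3)) ∨
      (∃ n : ℕ, n.Prime ∧ q = 4 * n + 1 ∧ 4 * w - 1 < q * (q - 2)))
    (hD : ∃ D : Finset (ZMod (4 * w - 1)), IsHDS w D) : Good w := by
  obtain ⟨u, hu⟩ := hqw
  have hu0 : 0 < u := by
    rcases Nat.eq_zero_or_pos u with h0 | h0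
    · rw [h0, mul_zero] at hu
      omega
    · exact h0
  by_cases hu1 : u = 1
  · left
    rw [hu, hu1, mul_one]
    exact hq
  have hu' : 1 < u := by omega
  have htr : ∀ v : ℕ, v = u * q → (∃ D : Finset (ZMod v), IsHDS w D) →
      ∃ D : Finset (ZMod (u * q)), IsHDS w D := by
    rintro v rfl h
    exact h
  obtain ⟨D, hD⟩ := htr _ (by rw [hu, mul_comm]) hD
  have hv : u * q + 1 = 4 * w := by
    rw [mul_comm, ← hu]
    omega
  rw [hu] at h
  rcases h with ⟨n, hn, rfl, hlt⟩ | ⟨n, hn, rfl, hlt⟩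
  · have hub : u < 2 * (2 * n + 1) + 3 := Nat.lt_of_mul_lt_mul_left hlt
    rcases Nat.lt_or_ge n 5 with h5 | h5
    · interval_cases n
      · exact absurd hn (by norm_num)
      · exact absurd hn (by norm_num)
      · exact small_five hu0 (by omega) hv D hD
      · exact small_seven hu0 (by omega) hv D hD
      · exact absurd hn (by norm_num)
    · exact main_two hn h5 hq hu' hub hv D hD
  · have hub : u < 4 * n + 1 - 2 := Nat.lt_of_mul_lt_mul_left hlt
    rcases Nat.lt_or_ge n 7 with h7 | h7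
    · interval_cases n
      · exact absurd hn (by norm_num)
      · exact absurd hn (by norm_num)
      · exact absurd hq (by norm_num)
      · exact (small_thirteen hu' (by omega) hv D hD).elim
      · exact absurd hn (by norm_num)
      · exact absurd hq (by norm_num)
      · exact absurd hn (by norm_num)
    · exact (main_four hn h7 hq hu' (by omega) hv D hD).elim

end Pool.Agent.H12.GS
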