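import Pool.Agent.H12.HD.Gen
import Pool.Agent.H12.GS.Frob
import Pool.Agent.H12.GS.Fib

/-!
# Mann's test for cyclic Hadamard difference sets

MODULE Mann (about 70 lines), imports Frob, Fib (statements may be used), H12/HD/Mult, Gen.

Let `g` be the function of the difference set (`had_ind` in H12/HD/Mult: `ind D` or similar is `Had`),
`F = fib g` on `ZMod q` (`q ∣ u q`). By `fib_ac` with `A = -1`: `∑ F y F (y+s) = -u` for `s ≠ 0` and
`∑ F y F y = u q - (u - 1)`. So the hypotheses of `mann_even` hold with `N = u q + 1 = 4 w`, `A = -u`.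
`p ≠ q` since `q` does not divide `4 w = u q + 1`. So `padicValNat p (4 w)` is even, and
`padicValNat p (4 w) = padicValNat p 4 + padicValNat p w`, where `padicValNat p 4` is `2` or `0`.
`mann_odd`: in the group of units of `ZMod q`, an element `x` of even order `2 m` has `x ^ m = -1`
(its square is `1` and it is not `1`; `ZMod q` is a field).
-/

set_option autoImplicit false

namespace Pool.Agent.H12.GS

open Finset
open Pool.Agent.H12.HD

theorem mann {u q w p j : ℕ} (hq : q.Prime) (hu : 0 < u) (hv : u * q + 1 = 4 * w)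
    (D : Finset (ZMod (u * q))) (hD : IsHDS w D) (hp : p.Prime) (hpw : p ∣ w)
    (hj : (p : ZMod q) ^ j = -1) : Even (padicValNat p w) := by
  have : Fact p.Prime := ⟨hp⟩
  have : NeZero q := ⟨hq.ne_zero⟩
  have : NeZero u := ⟨hu.ne'⟩
  have : NeZero (u * q) := ⟨Nat.mul_ne_zero hu.ne' hq.ne_zero⟩
  have hw : 0 < w := by omega
  have hH := had_ind hv hD
  have hr : q ∣ u * q := dvd_mul_left q u
  obtain ⟨h1, h2⟩ := fib_ac hr (ind D) (-1) hH.ac
  have hdiv : u * q / q = u := Nat.mul_div_cancel _ hq.pos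
  rw [hdiv] at h1 h2
  have hsq : ∑ x : ZMod (u * q), ind D x * ind D x = ((u * q : ℕ) : ℤ) := by
    rw [Finset.sum_congr rfl fun x _ => hH.mul_self x, Finset.sum_const, card_univ, ZMod.card,
      nsmul_eq_mul, mul_one]
  have hcop : Nat.Coprime p q := by
    have h3 : Nat.Coprime (4 * w) q := by
      rw [← hv]
      simp
    exact Nat.Coprime.coprime_dvd_left (hpw.mul_left 4) h3
  have hv' : ((u * q : ℕ) : ℤ) + 1 = ((4 * w : ℕ) : ℤ) := by exact_mod_cast hv
  have h5 := mann_even hq.one_lt hcop hj (4 * w) (by omega) (fib hr (ind D)) (-(u : ℤ))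
    (by
      rw [h2, hsq, ← hv']
      ring)
    (by
      intro s hs
      rw [h1 s hs]
      ring)
  rw [padicValNat.mul (by norm_num) hw.ne'] at h5
  have h6 : padicValNat p 4 = 2 * padicValNat p 2 := by
    rw [show (4 : ℕ) = 2 * 2 by norm_num, padicValNat.mul (by norm_num) (by norm_num), two_mul]
  rw [h6, Nat.even_add] at h5
  exact h5.1 (even_two_mul _)

theorem mann_odd {u q w p : ℕ} (hq : q.Prime) (hu : 0 < u) (hv : u * q + 1 = 4 * w)
    (D : Finset (ZMod (u * q))) (hD : IsHDS w D) (hp : p.Prime) (hpw : p ∣ w)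
    (hodd : ¬ Even (padicValNat p w)) : Odd (orderOf (p : ZMod q)) := by
  have : Fact q.Prime := ⟨hq⟩
  by_contra hne
  rw [Nat.not_odd_iff_even] at hne
  obtain ⟨m, hm⟩ := hne
  have hcop : Nat.Coprime p q := by
    have h3 : Nat.Coprime (4 * w) q := by
      rw [← hv]
      simp
    exact Nat.Coprime.coprime_dvd_left (hpw.mul_left 4) h3
  have hp0 : (p : ZMod q) ≠ 0 := by
    rw [Ne, ZMod.natCast_eq_zero_iff]
    exact (Nat.Prime.coprime_iff_not_dvd hq).1 hcop.symm
  have hpos : 0 < orderOf (p : ZMod q) :=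
    orderOf_pos_iff.2 (isOfFinOrder_iff_pow_eq_one.2
      ⟨q - 1, Nat.sub_pos_of_lt hq.one_lt, ZMod.pow_card_sub_one_eq_one hp0⟩)
  have h1 : ((p : ZMod q) ^ m) * ((p : ZMod q) ^ m) = 1 := by
    rw [← pow_add, ← hm, pow_orderOf_eq_one]
  rcases mul_self_eq_one_iff.1 h1 with h2 | h2
  · have h3 := orderOf_dvd_of_pow_eq_one h2
    have h4 : 0 < m := by omega
    have h5 := Nat.le_of_dvd h4 h3
    omega
  · exact hodd (mann hq hu hv D hD hp hpw h2)

end Pool.Agent.H12.GS
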