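import Mathlib

/-!
# Functions on `ZMod q` invariant under the squares, `q = 2 n + 1`

MODULE Quad (about 80 lines), Mathlib only.

`τ` has order `n`, `n` odd. For `y ≠ 0`: `(y ^ n) ^ 2 = y ^ (q-1) = 1`, so `y ^ n = 1` or `-1`. If
`y ^ n = 1` then `y = τ ^ k` (`IsPrimitiveRoot.orderOf τ`, `IsPrimitiveRoot.eq_pow_of_pow_eq_one`) and
`f y = f 1`. If `y ^ n = -1` then `(-y) ^ n = 1`, `-y = τ ^ k`, `y = τ ^ k * (-1)` and `f y = f (-1)`.
With the quadratic character `χ` (`χ y = y ^ n` in `ZMod q`: `quadraticChar_eq_pow_of_char_ne_two'`,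
or Euler's criterion `ZMod.euler_criterion`): for `y ≠ 0`
`2 f y = (f 1 + f (-1)) + (f 1 - f (-1)) χ y`, and `∑_y χ y = 0` (`quadraticChar_sum_zero`).
-/

set_option autoImplicit false

namespace Pool.Agent.H12.GS

open Finset

theorem sum_half {q n : ℕ} [Fact q.Prime] (hqn : q = 2 * n + 1) (hn : Odd n)
    (τ : ZMod q) (hτ : orderOf τ = n) (f : ZMod q → ℤ) (hf : ∀ y, f (τ * y) = f y) :
    ∑ y, f y = f 0 + n * f 1 + n * f (-1) := by
  classical
  have h1 : τ ^ n = 1 := by rw [← hτ]; exact pow_orderOf_eq_one τ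
  have hn0 : 0 < n := hn.pos
  have hprim : IsPrimitiveRoot τ n := by
    have := IsPrimitiveRoot.orderOf τ
    rwa [hτ] at this
  have hτ0 : τ ≠ 0 := by
    intro h
    rw [h, zero_pow hn0.ne'] at h1
    exact zero_ne_one h1
  have hneg : (1 : ZMod q) ≠ -1 := by
    intro h
    have h2 : ((2 : ℕ) : ZMod q) = 0 := by
      push_cast
      linear_combination h
    rw [ZMod.natCast_eq_zero_iff] at h2
    have := Nat.le_of_dvd (by norm_num) h2
    omega
  have hp1 : ∀ k : ℕ, f (τ ^ k) = f 1 := by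
    intro k
    induction k with
    | zero => rw [pow_zero]
    | succ k ih => rw [pow_succ', hf, ih]
  have hp2 : ∀ k : ℕ, f (-τ ^ k) = f (-1) := by
    intro k
    induction k with
    | zero => rw [pow_zero]
    | succ k ih => rw [pow_succ', ← mul_neg, hf, ih]
  have hinj : ∀ a ∈ Finset.range n, ∀ b ∈ Finset.range n, τ ^ a = τ ^ b → a = b :=
    fun a ha b hb h => hprim.pow_inj (Finset.mem_range.1 ha) (Finset.mem_range.1 hb) h
  have hinj' : ∀ a ∈ Finset.range n, ∀ b ∈ Finset.range n, -τ ^ a = -τ ^ b → a = b :=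
    fun a ha b hb h => hinj a ha b hb (neg_injective h)
  set S1 : Finset (ZMod q) := (Finset.range n).image fun k => τ ^ k with hS1
  set S2 : Finset (ZMod q) := (Finset.range n).image fun k => -τ ^ k with hS2
  have hc1 : S1.card = n := by
    rw [hS1, Finset.card_image_of_injOn fun a ha b hb h => hinj a ha b hb h, Finset.card_range]
  have hc2 : S2.card = n := by
    rw [hS2, Finset.card_image_of_injOn fun a ha b hb h => hinj' a ha b hb h, Finset.card_range]
  have hd12 : Disjoint S1 S2 := by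
    rw [Finset.disjoint_left]
    intro y hy1 hy2
    obtain ⟨a, _, ha⟩ := Finset.mem_image.1 hy1
    obtain ⟨b, _, hb⟩ := Finset.mem_image.1 hy2
    have h2 : y ^ n = 1 := by rw [← ha, ← pow_mul, mul_comm, pow_mul, h1, one_pow]
    have h3 : y ^ n = -1 := by
      rw [← hb, hn.neg_pow, ← pow_mul, mul_comm, pow_mul, h1, one_pow]
    exact hneg (h2.symm.trans h3)
  have hd0 : Disjoint ({0} : Finset (ZMod q)) (S1 ∪ S2) := by
    rw [Finset.disjoint_singleton_left, Finset.mem_union, not_or]
    constructor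
    · intro h
      obtain ⟨a, _, ha⟩ := Finset.mem_image.1 h
      exact pow_ne_zero a hτ0 ha
    · intro h
      obtain ⟨a, _, ha⟩ := Finset.mem_image.1 h
      exact pow_ne_zero a hτ0 (neg_eq_zero.1 ha)
  have huniv : ({0} : Finset (ZMod q)) ∪ (S1 ∪ S2) = Finset.univ := by
    apply Finset.eq_univ_of_card
    rw [Finset.card_union_of_disjoint hd0, Finset.card_union_of_disjoint hd12, hc1, hc2,
      Finset.card_singleton, ZMod.card]
    omega
  rw [← huniv, Finset.sum_union hd0, Finset.sum_union hd12, Finset.sum_singleton, hS1, hS2,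
    Finset.sum_image hinj, Finset.sum_image hinj']
  simp only [hp1, hp2, Finset.sum_const, Finset.card_range, nsmul_eq_mul]
  ring

end Pool.Agent.H12.GS
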