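import Pool.Agent.H12.HD.Safe
import Pool.Agent.H12.GS.Fib
import Pool.Agent.H12.GS.Rigid
import Pool.Agent.H12.GS.Quad

/-!
# The structure given by the multipliers

MODULE Struct (about 130 lines), imports H12/HD/Safe, Gen, Core, Crt and Fib, Rigid, Quad.

* `exists_G`: as in the proofs of `root_test` (H12/HD/Safe) and `test` (H12/HD/Gen): `exists_test`
  with `N = n` (`dvd_ord`), then `exists_prod` (H12/HD/Crt), then `exists_l` (H12/HD/Core;
  `lcm 2 n = 2 n`, `period_dvd`, `mul_inj` from H12/HD/Desc).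
* `row`: `e x = G (x, 0)`; `sum_sq` is `Had.sum_sq` (H12/HD/Crt), `norm` is `sum_fibre_sq`
  (H12/HD/Core), `ac` is `prod_ac`.
* `two`: `a = 2`: `t x = (G (x,1) + G (x,-1)) / 2`, `h x = (G (x,1) - G (x,-1)) / 2`. `sum_half` for
  `y ↦ G (x,y)` shows that this `t` is the one of `exists_G`; `sum_half` for
  `y ↦ G (x,y) * G (x+s,y)`, summed over `x`, gives the last statement
  (`a a' + b b' = 2 (t t' + h h')` for `a = t + h`, `b = t - h`), because
  `∑_{(x,y)} G (x,y) G (x+s,y+0) = -1`.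
-/

set_option autoImplicit false

namespace Pool.Agent.H12.GS

open Finset
open Pool.Agent.H12.HD

theorem exists_G {u q n a w : ℕ} [NeZero u] [Fact q.Prime] (hn : n.Prime) (hn2 : n ≠ 2)
    (hqa : q = a * n + 1) (hu : 1 < u) (hqu : ¬ q ∣ u) (hun : ¬ n ∣ Nat.totient u)
    (hv : u * q + 1 = 4 * w)
    (hroot : ∀ p : ℕ, p.Prime → p ∣ w → ((p : ZMod q)) ^ a ≠ 1)
    (D : Finset (ZMod (u * q))) (hD : IsHDS w D) :
    ∃ G : ZMod u × ZMod q → ℤ, Had G ∧ ∃ τ : ZMod q, orderOf τ = n ∧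
      (∀ x y, G (x, τ * y) = G (x, y)) ∧
      ∃ t : ZMod u → ℤ, ∀ x, ∑ y, G (x, y) = G (x, 0) + 2 * n * t x := by
  have hq : q.Prime := Fact.out
  have hq2 := hq.two_le
  have hcop : Nat.Coprime u q := ((Nat.Prime.coprime_iff_not_dvd hq).2 hqu).symm
  have hv0 : NeZero (u * q) := ⟨(Nat.mul_pos (by omega) hq.pos).ne'⟩
  have hw2 : 2 ≤ w := by
    have : 2 * 2 ≤ u * q := Nat.mul_le_mul hu hq2
    omega
  have hN : ∀ p : ℕ, p.Prime → p ∣ w → n ∣ orderOf ((p : ZMod q) ^ Nat.totient u) := by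
    intro p hp hpw
    refine dvd_ord hq hn hqa ((Nat.Prime.coprime_iff_not_dvd hn).2 hun).symm _ ?_
      (hroot p hp hpw)
    rw [Ne, ZMod.natCast_eq_zero_iff]
    intro h
    have h2 : q = p := (Nat.prime_dvd_prime_iff_eq hq hp).1 h
    rw [← h2] at hpw
    have h3 : q ∣ 4 * w := Dvd.dvd.mul_left hpw 4
    rw [← hv] at h3
    have h4 : q ∣ 1 := (Nat.dvd_add_right (dvd_mul_left q u)).1 h3
    exact hq.one_lt.ne' (Nat.dvd_one.1 h4)
  obtain ⟨g, hg, t, htc, ht1, htN, ht⟩ := exists_test hq hcop hv hw2 hN D hD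
  have hqo : Odd q := by
    have h1 : Odd (u * q) := ⟨2 * w - 1, by omega⟩
    exact (Nat.odd_mul.1 h1).2
  obtain ⟨G, hG, hinv⟩ := exists_prod (v := u * q) (u := u) (r := q) rfl hcop g hg
  have hinv' : ∀ x y, G (x, (t : ZMod q) * y) = G (x, y) := by
    intro x y
    have h := hinv t ht x y
    rwa [ht1, one_mul] at h
  refine ⟨G, hG, (t : ZMod q), htN, hinv', ?_⟩
  have hodd : ∀ z, Odd (G z) := by
    intro z
    rcases hG.val z with h | h <;> rw [h] <;> decide
  obtain ⟨l, hl⟩ := exists_l (B := ZMod u) (C := ZMod q) (by rwa [ZMod.card]) G hodd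
    (fun y => (t : ZMod q) * y) (mul_inj htc) (mul_zero _) hinv' n
    (fun y hy k hk => period_dvd (r := q) (t := t) (fun q' hq' hd => by
      rw [(Nat.prime_dvd_prime_iff_eq hq' hq).1 hd, htN]) y hy k hk)
  have h2 : Nat.lcm 2 n = 2 * n :=
    Nat.Coprime.lcm_eq_mul ((Nat.coprime_primes Nat.prime_two hn).2 hn2.symm)
  refine ⟨l, fun x => ?_⟩
  rw [hl x, h2]
  push_cast
  ring

theorem row {u q n a : ℕ} [NeZero u] [Fact q.Prime] (hqa : q = a * n + 1)
    (G : ZMod u × ZMod q → ℤ) (hG : Had G) (t : ZMod u → ℤ)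
    (ht : ∀ x, ∑ y, G (x, y) = G (x, 0) + 2 * n * t x) : Row u a n (fun x => G (x, 0)) t := by
  have hc : ((q : ℕ) : ℤ) = a * n + 1 := by
    rw [hqa]
    push_cast
    ring
  refine ⟨fun x => hG.val _, ?_, ?_, fun s hs => ?_⟩
  · have h := hG.sum_sq
    rw [Fintype.sum_prod_type] at h
    simp only [ht] at h
    exact h
  · have h := sum_fibre_sq G hG
    simp only [ht] at h
    rw [ZMod.card, ZMod.card, hc] at h
    exact h
  · have h := prod_ac G hG s hs
    simp only [ht] at h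
    rw [ZMod.card, hc] at h
    exact h

theorem two {u q n : ℕ} [NeZero u] [Fact q.Prime] (hn0 : 0 < n) (hn : Odd n)
    (hqa : q = 2 * n + 1) (G : ZMod u × ZMod q → ℤ) (hG : Had G) (τ : ZMod q)
    (hτ : orderOf τ = n) (hinv : ∀ x y, G (x, τ * y) = G (x, y)) (t : ZMod u → ℤ)
    (ht : ∀ x, ∑ y, G (x, y) = G (x, 0) + 2 * n * t x) :
    ∃ h : ZMod u → ℤ, (∀ x, t x ^ 2 + h x ^ 2 = 1) ∧
      ∀ s, s ≠ 0 → ∑ x, G (x, 0) * G (x + s, 0) +
        2 * n * ∑ x, (t x * t (x + s) + h x * h (x + s)) = -1 := by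
  have hnz : (n : ℤ) ≠ 0 := by exact_mod_cast hn0.ne'
  have h1 : ∀ x, G (x, -1) = 2 * t x - G (x, 1) := by
    intro x
    have h2 := sum_half hqa hn τ hτ (fun y => G (x, y)) (fun y => hinv x y)
    have h3 : (n : ℤ) * (G (x, 1) + G (x, -1)) = n * (2 * t x) := by
      have h4 := ht x
      rw [h2] at h4
      linear_combination h4
    have h5 := mul_left_cancel₀ hnz h3
    linarith
  refine ⟨fun x => G (x, 1) - t x, fun x => ?_, fun s hs => ?_⟩
  · have h2 := hG.mul_self (x, 1)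
    have h3 := hG.mul_self (x, -1)
    rw [h1] at h3
    refine mul_left_cancel₀ (two_ne_zero : (2 : ℤ) ≠ 0) ?_
    linear_combination h2 + h3
  · have h2 : ∀ x, ∑ y, G (x, y) * G (x + s, y) = G (x, 0) * G (x + s, 0) +
        2 * n * (t x * t (x + s) + (G (x, 1) - t x) * (G (x + s, 1) - t (x + s))) := by
      intro x
      have h3 := sum_half hqa hn τ hτ (fun y => G (x, y) * G (x + s, y)) (fun y => by
        rw [hinv, hinv])
      rw [h3, h1, h1]
      ring
    have h3 := hG.ac (s, 0) (by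
      intro h
      exact hs (congrArg Prod.fst h))
    rw [Fintype.sum_prod_type] at h3
    have h4 : ∀ x : ZMod u, ∑ y : ZMod q, G (x, y) * G ((x, y) + (s, 0)) =
        G (x, 0) * G (x + s, 0) +
        2 * n * (t x * t (x + s) + (G (x, 1) - t x) * (G (x + s, 1) - t (x + s))) := by
      intro x
      rw [← h2 x]
      refine sum_congr rfl fun y _ => ?_
      rw [Prod.mk_add_mk, add_zero]
    simp only [h4] at h3
    rw [sum_add_distrib, ← mul_sum] at h3
    exact h3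

end Pool.Agent.H12.GS
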